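import Pool.Agent.Work.MP_80ff4e_al.Interface2

/-!
# MP_80ff4e_al, block A2
-/

set_option autoImplicit false

namespace PCF

namespace SelfSim

variable {G X : Type} [Group G] (S : SelfSim G X)

lemma K_append72 (w u : List X) : S.K w ≤ S.K (w ++ u) := by
  intro g hg
  rw [S.mem_K] at hg ⊢
  refine ⟨?_, ?_⟩
  · rw [S.wact_append, hg.1, hg.2, S.wact_one]
  · rw [S.wsec_append, hg.2, S.wsec_one]

lemma K_conj_mem72 {w : List X} {k : G} (hk : k ∈ S.K w) (g : G) :
    g * k * g⁻¹ ∈ S.K (S.wact g w) := by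
  rw [S.mem_K] at hk ⊢
  refine ⟨?_, ?_⟩
  · rw [S.wact_mul, S.wact_mul, S.wact_inv_wact, hk.1]
  · rw [S.wsec_conj, hk.1, hk.2, mul_one, mul_inv_cancel]

/-- The subgroup generated by the `K_w` of level `n`. -/
def RR72 (n : ℕ) : Subgroup G := ⨆ w : {w : List X // w.length = n}, S.K w.1

lemma K_le_RR72 {w : List X} : S.K w ≤ S.RR72 w.length :=
  le_iSup (fun w' : {w' : List X // w'.length = w.length} => S.K w'.1) ⟨w, rfl⟩

lemma RR_mono_succ72 [Nonempty X] (n : ℕ) : S.RR72 n ≤ S.RR72 (n + 1) := by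
  apply iSup_le
  rintro ⟨w, hw⟩
  obtain ⟨x⟩ := ‹Nonempty X›
  refine (S.K_append72 w [x]).trans ?_
  have : n + 1 = (w ++ [x]).length := by simp [hw]
  rw [this]
  exact S.K_le_RR72

lemma RR_mono72 [Nonempty X] : Monotone S.RR72 := monotone_nat_of_le_succ S.RR_mono_succ72

lemma RR_normal72 (n : ℕ) : (S.RR72 n).Normal := by
  constructor
  intro k hk g
  have hle : S.RR72 n ≤ (S.RR72 n).comap (MulAut.conj g).toMonoidHom := by
    apply iSup_le
    rintro ⟨w, hw⟩ k hk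
    have h1 := S.K_conj_mem72 hk g
    have h2 : S.K (S.wact g w) ≤ S.RR72 n := by
      have : n = (S.wact g w).length := by simp [hw]
      rw [this]
      exact S.K_le_RR72
    exact h2 h1
  exact hle hk

end SelfSim

namespace PCFSys

variable {G X : Type} [Group G] [Fintype X] (T : PCFSys G X)

include T in
lemma nonempty72 : Nonempty X :=
  Fintype.card_pos_iff.1 (by have := T.two_le; omega)

/-- A power of the generator lies in `K_w`. -/
lemma gen_pow_mem72 {z : ℂ} (hz : z ∈ T.P) (n : ℕ) {u : ℂ} (hu : u ∈ T.fib n z) (huP : u ∉ T.P) :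
    T.gen z ^ T.deg n u ∈ T.S.RR72 n := by
  obtain ⟨π, hπ1, hπ2, -, hπ4, hπ5⟩ := T.labels n z (T.gen z) (T.gen_mem z hz)
  obtain ⟨w, hw, rfl⟩ := hπ2 u ((T.mem_fib _ _ _).1 hu)
  have h1 : T.gen z ^ T.deg n (π w) ∈ T.S.K w := by
    rw [T.S.mem_K]
    exact ⟨(hπ4 w _ hw).2 dvd_rfl, T.In_triv _ huP _ (hπ5 w hw)⟩
  have h2 := T.S.K_le_RR72 h1
  rwa [hw] at h2

include T in
lemma fg72 : Group.FG G := by
  classical
  refine ⟨⟨(T.P.image T.gen), ?_⟩⟩
  rw [Finset.coe_image, T.gen_top]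

/-- The union of the `RR72 n`. -/
def Rinf72 : Subgroup G := ⨆ n, T.S.RR72 n

lemma mem_Rinf72 {g : G} : g ∈ T.Rinf72 ↔ ∃ n, g ∈ T.S.RR72 n := by
  have : Nonempty X := T.nonempty72
  exact Subgroup.mem_iSup_of_directed (T.S.RR_mono72.directed_le)

lemma Rinf_normal72 : T.Rinf72.Normal := by
  constructor
  intro k hk g
  obtain ⟨n, hn⟩ := T.mem_Rinf72.1 hk
  exact T.mem_Rinf72.2 ⟨n, (T.S.RR_normal72 n).conj_mem k hn g⟩

/-- A subgroup of `ℤ` that contains, for every prime `q`, an element not divisible by `q`. -/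
lemma pow_mem_of_primes72 {H : Subgroup G} {g : G}
    (h : ∀ q : ℕ, q.Prime → ∃ m : ℕ, ¬ q ∣ m ∧ g ^ m ∈ H) : g ∈ H := by
  let A : AddSubgroup ℤ := {
    carrier := {k | g ^ k ∈ H}
    zero_mem' := by simp [H.one_mem]
    add_mem' := by
      intro a b ha hb
      simp only [Set.mem_ofPred_eq] at *
      rw [zpow_add]; exact H.mul_mem ha hb
    neg_mem' := by
      intro a ha
      simp only [Set.mem_ofPred_eq] at *
      rw [zpow_neg]; exact H.inv_mem ha }
  obtain ⟨a, ha⟩ := Int.subgroup_cyclic A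
  have hmem : ∀ k : ℤ, k ∈ A ↔ a ∣ k := by
    intro k
    rw [ha, AddSubgroup.mem_closure_singleton]
    constructor
    · rintro ⟨n, rfl⟩
      exact ⟨n, by simp [mul_comm]⟩
    · rintro ⟨n, rfl⟩
      exact ⟨n, by simp [mul_comm]⟩
  have ha1 : a.natAbs = 1 := by
    by_contra hne
    obtain ⟨q, hq, hqa⟩ := Nat.exists_prime_and_dvd hne
    obtain ⟨m, hm, hmH⟩ := h q hq
    have h1 : (m : ℤ) ∈ A := by
      show g ^ (m : ℤ) ∈ H
      rw [zpow_natCast]; exact hmH
    rw [hmem] at h1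
    apply hm
    have h2 : a.natAbs ∣ m := by
      have := Int.natAbs_dvd_natAbs.2 h1
      simpa using this
    exact hqa.trans h2
  have h1 : (1 : ℤ) ∈ A := by
    rw [hmem]
    exact (Int.isUnit_iff_natAbs_eq.2 ha1).dvd
  have h2 : g ^ (1 : ℤ) ∈ H := h1
  simpa using h2

/-- `NE`: all generators but one are in `R_∞`, and a power of the last one. -/
lemma NE_Rinf72 (hNE : T.NE) : ∃ z₀, (∀ z ∈ T.P, z ≠ z₀ → T.gen z ∈ T.Rinf72) ∧
    ∀ z ∈ T.P, ∃ N : ℕ, 0 < N ∧ T.gen z ^ N ∈ T.Rinf72 := by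
  obtain ⟨h1, z₀, h2⟩ := hNE
  refine ⟨z₀, fun z hz hne => ?_, fun z hz => ?_⟩
  · apply pow_mem_of_primes72
    intro q hq
    obtain ⟨n, u, hu, huP, hd⟩ := h2 z hz hne q hq
    exact ⟨_, hd, T.mem_Rinf72.2 ⟨n, T.gen_pow_mem72 hz n hu huP⟩⟩
  · obtain ⟨n, u, hu, huP⟩ := h1 z hz
    exact ⟨T.deg n u, T.deg_pos n u, T.mem_Rinf72.2 ⟨n, T.gen_pow_mem72 hz n hu huP⟩⟩

/-- If all the generators but `gen z₀` lie in the normal subgroup `M`, then `G / M` is generated
by the class of `gen z₀`. -/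
lemma exists_zpow72 {M : Subgroup G} (hM : M.Normal) {z₀ : ℂ}
    (h : ∀ z ∈ T.P, z ≠ z₀ → T.gen z ∈ M) (g : G) : ∃ k : ℤ, g⁻¹ * T.gen z₀ ^ k ∈ M := by
  have hg : g ∈ Subgroup.closure (T.gen '' (T.P : Set ℂ)) := by rw [T.gen_top]; trivial
  have key : ∃ k : ℤ, (QuotientGroup.mk' M g) = (QuotientGroup.mk' M (T.gen z₀)) ^ k := by
    induction hg using Subgroup.closure_induction with
    | mem x hx =>
      obtain ⟨z, hz, rfl⟩ := hx
      by_cases hz0 : z = z₀
      · exact ⟨1, by rw [hz0, zpow_one]⟩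
      · refine ⟨0, ?_⟩
        rw [zpow_zero]
        exact (QuotientGroup.eq_one_iff _).2 (h z hz hz0)
    | one => exact ⟨0, by simp⟩
    | mul x y _ _ hx hy =>
      obtain ⟨k, hk⟩ := hx
      obtain ⟨l, hl⟩ := hy
      exact ⟨k + l, by rw [map_mul, hk, hl, zpow_add]⟩
    | inv x _ hx =>
      obtain ⟨k, hk⟩ := hx
      exact ⟨-k, by rw [map_inv, hk, zpow_neg]⟩
  obtain ⟨k, hk⟩ := key
  refine ⟨k, ?_⟩
  rw [← map_zpow] at hk
  exact QuotientGroup.eq.1 hk

end PCFSys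

theorem stmt_A2 : Stmt_A2 := by
  intro G X _ _ T hNE
  have : Nonempty X := T.nonempty72
  obtain ⟨z₀, hz, hN⟩ := T.NE_Rinf72 hNE
  have hnorm := T.Rinf_normal72
  have hfi : T.Rinf72.FiniteIndex := by
    by_cases hz0 : z₀ ∈ T.P
    · obtain ⟨N, hN0, hNm⟩ := hN z₀ hz0
      have hfin : Finite (G ⧸ T.Rinf72) := by
        have hsurj : Function.Surjective
            (fun i : Fin N => (QuotientGroup.mk' T.Rinf72 (T.gen z₀ ^ (i : ℕ)))) := by
          intro q
          obtain ⟨g, rfl⟩ := QuotientGroup.mk'_surjective T.Rinf72 q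
          obtain ⟨k, hk⟩ := T.exists_zpow72 hnorm hz g
          have hk' : (QuotientGroup.mk' T.Rinf72 g) = (QuotientGroup.mk' T.Rinf72 (T.gen z₀)) ^ k := by
            rw [← map_zpow]
            exact QuotientGroup.eq.2 hk
          have hone : (QuotientGroup.mk' T.Rinf72 (T.gen z₀)) ^ N = 1 := by
            rw [← map_pow]
            exact (QuotientGroup.eq_one_iff _).2 hNm
          have hNz : (N : ℤ) ≠ 0 := by omega
          refine ⟨⟨(k % N).toNat, ?_⟩, ?_⟩
          · have := Int.emod_lt_of_pos k (by omega : (0 : ℤ) < N)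
            have := Int.emod_nonneg k hNz
            omega
          · simp only
            rw [map_pow, hk', ← zpow_natCast, Int.toNat_of_nonneg (Int.emod_nonneg k hNz)]
            conv_rhs => rw [← Int.emod_add_mul_ediv k N]
            rw [zpow_add, zpow_mul, zpow_natCast _ N, hone, one_zpow, mul_one]
        exact Finite.of_surjective _ hsurj
      exact Subgroup.finiteIndex_of_finite_quotient
    · have htop : T.Rinf72 = ⊤ := by
        rw [eq_top_iff, ← T.gen_top, Subgroup.closure_le]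
        rintro _ ⟨z, hzP, rfl⟩
        exact hz z hzP (fun h => hz0 (h ▸ hzP))
      rw [htop]
      infer_instance
  -- finitely generated
  have hfg : Group.FG G := T.fg72
  have hRfg : T.Rinf72.FG := by
    have : Group.FG T.Rinf72 := Subgroup.fg_of_index_ne_zero T.Rinf72
    exact (Group.fg_iff_subgroup_fg _).1 this
  obtain ⟨s, hs⟩ := hRfg
  have hex : ∃ n, ∀ g ∈ s, g ∈ T.S.RR72 n := by
    have h1 : ∀ g ∈ s, ∃ n, g ∈ T.S.RR72 n := fun g hg =>
      T.mem_Rinf72.1 (by rw [← hs]; exact Subgroup.subset_closure hg)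
    choose! f hf using h1
    refine ⟨s.sup f, fun g hg => T.S.RR_mono72 (Finset.le_sup hg) (hf g hg)⟩
  obtain ⟨n, hn⟩ := hex
  refine ⟨n, ?_⟩
  have hle : T.Rinf72 ≤ T.S.RR72 n := by
    rw [← hs, Subgroup.closure_le]
    exact fun g hg => hn g hg
  exact Subgroup.finiteIndex_of_le hle

end PCF
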