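import Pool.Agent.Work.MP_80ff4e_al_helper72.A2

/-!
# MP_80ff4e_al, block A4
-/

set_option autoImplicit false

namespace PCF

namespace SelfSim

variable {G X : Type} [Group G] {S : SelfSim G X}

lemma SelfRep.word72 (h : S.SelfRep) (w : List X) (g : G) :
    ∃ k, S.wact k w = w ∧ S.wsec k w = g := by
  induction w generalizing g with
  | nil => exact ⟨g, rfl, rfl⟩
  | cons x w ih =>
    obtain ⟨k', h1, h2⟩ := ih g
    obtain ⟨k, h3, h4⟩ := h x k'
    exact ⟨k, by rw [S.wact_cons, h3, h4, h1], by rw [S.wsec_cons, h4, h2]⟩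

lemma SelfRep.secHom_surj72 (h : S.SelfRep) (w : List X) : Function.Surjective (S.secHom w) := by
  intro g
  obtain ⟨k, h1, h2⟩ := h.word72 w g
  exact ⟨⟨k, h1⟩, h2⟩

lemma secSub_append72 (M : Subgroup G) (w u : List X) :
    S.secSub M (w ++ u) = S.secSub (S.secSub M w) u := by
  ext h
  rw [S.mem_secSub, S.mem_secSub]
  constructor
  · rintro ⟨g, hg, h1, h2⟩
    rw [S.wact_append] at h1
    rw [S.wsec_append] at h2
    obtain ⟨h3, h4⟩ := List.append_inj h1 (by simp)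
    exact ⟨S.wsec g w, S.mem_secSub.2 ⟨g, hg, h3, rfl⟩, h4, h2⟩
  · rintro ⟨k, hk, h1, h2⟩
    obtain ⟨g, hg, h3, rfl⟩ := S.mem_secSub.1 hk
    exact ⟨g, hg, by rw [S.wact_append, h3, h1], by rw [S.wsec_append, h2]⟩

lemma secSub_normal72 (hS : S.SelfRep) {M : Subgroup G} (hM : M.Normal) (w : List X) :
    (S.secSub M w).Normal := by
  constructor
  intro h hh g
  obtain ⟨m, hm, h1, rfl⟩ := S.mem_secSub.1 hh
  obtain ⟨k, h2, rfl⟩ := hS.word72 w g
  refine S.mem_secSub.2 ⟨k * m * k⁻¹, hM.conj_mem m hm k, ?_, ?_⟩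
  · rw [S.wact_mul, S.wact_mul]
    conv_lhs => rw [← h2]
    rw [S.wact_inv_wact, h1, h2]
  · have := S.wsec_conj k m w
    rw [h2, h1] at this
    exact this

lemma secSub_eq72 (hS : S.SelfRep) (hT : S.LevTrans) {M : Subgroup G} (hM : M.Normal)
    {u v : List X} (huv : u.length = v.length) : S.secSub M u ≤ S.secSub M v := by
  intro h hh
  obtain ⟨m, hm, h1, rfl⟩ := S.mem_secSub.1 hh
  obtain ⟨k, rfl⟩ := hT u v huv
  have hn := S.secSub_normal72 hS hM (S.wact k u)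
  have h3 : S.wsec k u * S.wsec m u * (S.wsec k u)⁻¹ ∈ S.secSub M (S.wact k u) := by
    refine S.mem_secSub.2 ⟨k * m * k⁻¹, hM.conj_mem m hm k, ?_, ?_⟩
    · rw [S.wact_mul, S.wact_mul, S.wact_inv_wact, h1]
    · have := S.wsec_conj k m u
      rw [h1] at this
      exact this
  have h4 := hn.conj_mem _ h3 (S.wsec k u)⁻¹
  have h5 : (S.wsec k u)⁻¹ * (S.wsec k u * S.wsec m u * (S.wsec k u)⁻¹) * (S.wsec k u)⁻¹⁻¹ =
      S.wsec m u := by group
  rwa [h5] at h4

lemma index_comap_secHom72 (hS : S.SelfRep) (M' : Subgroup G) (w : List X) :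
    (M'.comap (S.secHom w)).index = M'.index :=
  Subgroup.index_comap_of_surjective M' (hS.secHom_surj72 w)

lemma subgroupOf_le_comap72 (M : Subgroup G) (w : List X) :
    M.subgroupOf (S.St w) ≤ (S.secSub M w).comap (S.secHom w) := by
  intro g hg
  rw [Subgroup.mem_comap]
  exact S.mem_secSub.2 ⟨g, hg, g.2, rfl⟩

lemma index_secSub_dvd72 (hS : S.SelfRep) {M : Subgroup G} (hM : M.Normal) (w : List X) :
    (S.secSub M w).index ∣ M.index := by
  rw [← S.index_comap_secHom72 hS]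
  exact (Subgroup.index_dvd_of_le (S.subgroupOf_le_comap72 M w)).trans
    (Subgroup.relIndex_dvd_index_of_normal M (S.St w))

/-- Equality of the indices. -/
lemma mem_iff_of_index_eq72 (hS : S.SelfRep) {M : Subgroup G} (hM : M.Normal)
    (hfi : M.index ≠ 0) (w : List X) (h : (S.secSub M w).index = M.index) {g : G}
    (hg : S.wact g w = w) : g ∈ M ↔ S.wsec g w ∈ S.secSub M w := by
  constructor
  · intro hgM
    exact S.mem_secSub.2 ⟨g, hgM, hg, rfl⟩
  · intro hgM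
    have h1 : ((S.secSub M w).comap (S.secHom w)).index ∣ (M.subgroupOf (S.St w)).index :=
      Subgroup.index_dvd_of_le (S.subgroupOf_le_comap72 M w)
    have h2 : (M.subgroupOf (S.St w)).index ∣ M.index :=
      Subgroup.relIndex_dvd_index_of_normal M (S.St w)
    have h3 : ((S.secSub M w).comap (S.secHom w)).index = M.index := by
      rw [S.index_comap_secHom72 hS, h]
    have h4 : (M.subgroupOf (S.St w)).index = ((S.secSub M w).comap (S.secHom w)).index := by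
      apply Nat.dvd_antisymm
      · rw [h3]; exact h2
      · exact h1
    have h5 : (M.subgroupOf (S.St w)).relIndex ((S.secSub M w).comap (S.secHom w)) = 1 := by
      have h6 := Subgroup.relIndex_mul_index (S.subgroupOf_le_comap72 M w)
      rw [h4] at h6
      have h7 : ((S.secSub M w).comap (S.secHom w)).index ≠ 0 := by rw [h3]; exact hfi
      exact Nat.eq_of_mul_eq_mul_right (Nat.pos_of_ne_zero h7) (by rw [h6, one_mul])
    have h8 := Subgroup.relIndex_eq_one.1 h5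
    have h9 : (⟨g, hg⟩ : S.St w) ∈ (S.secSub M w).comap (S.secHom w) := hgM
    exact h8 h9

lemma K_le_of_index_eq72 (hS : S.SelfRep) {M : Subgroup G} (hM : M.Normal)
    (hfi : M.index ≠ 0) (w : List X) (h : (S.secSub M w).index = M.index) : S.K w ≤ M := by
  intro g hg
  rw [S.mem_K] at hg
  rw [S.mem_iff_of_index_eq72 hS hM hfi w h hg.1, hg.2]
  exact Subgroup.one_mem _

end SelfSim

namespace PCFSys

variable {G X : Type} [Group G] [Fintype X] (T : PCFSys G X)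

lemma levTrans72 : T.S.LevTrans := by
  intro u v h
  obtain ⟨k, hk⟩ := T.odo u v h
  exact ⟨T.τ ^ k, hk⟩

/-- A stable subgroup of finite index of a system with `NE` and `AQ` is everything. -/
lemma stable_eq_top72 (hNE : T.NE) (hAQ : T.AQ) (M : Subgroup G) (hM : M.Normal)
    (hfi : M.index ≠ 0) (hst : ∀ u : List X, (T.S.secSub M u).index = M.index) :
    M.index = 1 := by
  by_contra hq1
  set q := M.index with hq
  obtain ⟨p, hp, hpq⟩ := Nat.exists_prime_and_dvd hq1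
  have hS := T.selfrep
  obtain ⟨z₀, hz, hN⟩ := T.NE_Rinf72 hNE
  obtain ⟨x₀⟩ := T.nonempty72
  -- the second subgroup
  set M₂ := T.S.secSub M [x₀] with hM₂
  have hM₂n : M₂.Normal := T.S.secSub_normal72 hS hM _
  have hM₂i : M₂.index = q := hst _
  have hM₂y : ∀ y : X, T.S.secSub M [y] = M₂ := fun y =>
    le_antisymm (T.S.secSub_eq72 hS T.levTrans72 hM rfl) (T.S.secSub_eq72 hS T.levTrans72 hM rfl)
  have hst₂ : ∀ u : List X, (T.S.secSub M₂ u).index = M₂.index := by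
    intro u
    rw [hM₂, ← T.S.secSub_append72, hst, hst]
  have hR : T.Rinf72 ≤ M := by
    apply iSup_le
    intro n
    apply iSup_le
    intro w
    exact T.S.K_le_of_index_eq72 hS hM hfi w.1 (hst w.1)
  have hR₂ : T.Rinf72 ≤ M₂ := by
    apply iSup_le
    intro n
    apply iSup_le
    intro w
    exact T.S.K_le_of_index_eq72 hS hM₂n (by rw [hM₂i]; exact hfi) w.1 (hst₂ w.1)
  have hz1 : ∀ z ∈ T.P, z ≠ z₀ → T.gen z ∈ M := fun z h1 h2 => hR (hz z h1 h2)
  have hz2 : ∀ z ∈ T.P, z ≠ z₀ → T.gen z ∈ M₂ := fun z h1 h2 => hR₂ (hz z h1 h2)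
  have hz0 : z₀ ∈ T.P := by
    by_contra h0
    apply hq1
    rw [hq, Subgroup.index_eq_one, eq_top_iff, ← T.gen_top, Subgroup.closure_le]
    rintro _ ⟨z, hzP, rfl⟩
    exact hz1 z hzP (fun h => h0 (h ▸ hzP))
  -- orders
  have hord : ∀ L : Subgroup G, ∀ hL : L.Normal, L.index = q →
      (∀ z ∈ T.P, z ≠ z₀ → T.gen z ∈ L) → ∀ k : ℕ, T.gen z₀ ^ k ∈ L ↔ q ∣ k := by
    intro L hL hLi hLz k
    have hcard : Nat.card (G ⧸ L) = q := hLi
    have hfin : Finite (G ⧸ L) := Nat.finite_of_card_ne_zero (by rw [hcard]; exact hfi)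
    have hall : ∀ a : G ⧸ L, a ∈ Subgroup.zpowers (QuotientGroup.mk' L (T.gen z₀)) := by
      intro a
      obtain ⟨g, rfl⟩ := QuotientGroup.mk'_surjective L a
      obtain ⟨k, hk⟩ := T.exists_zpow72 hL hLz g
      refine ⟨k, ?_⟩
      show (QuotientGroup.mk' L (T.gen z₀)) ^ k = _
      rw [← map_zpow]
      exact (QuotientGroup.eq.2 hk).symm
    have h1 : orderOf (QuotientGroup.mk' L (T.gen z₀)) = q := by
      rw [orderOf_eq_card_of_forall_mem_zpowers hall, hcard]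
    rw [← h1, orderOf_dvd_iff_pow_eq_one, ← map_pow]
    exact (QuotientGroup.eq_one_iff _).symm
  have hord1 := hord M hM rfl hz1
  have hord2 := hord M₂ hM₂n hM₂i hz2
  have hsec : ∀ (y : X) (g : G), T.S.wact g [y] = [y] → (g ∈ M ↔ T.S.wsec g [y] ∈ M₂) := by
    intro y g hg
    rw [T.S.mem_iff_of_index_eq72 hS hM hfi [y] (hst _) hg, hM₂y]
  have hgenconj : ∀ (u : ℂ), u ∈ T.P → ∀ h ∈ T.In u, ∀ k : ℕ, h ^ k ∈ M₂ ↔ T.gen u ^ k ∈ M₂ := by
    intro u hu h hh k
    obtain ⟨c, rfl⟩ := T.In_single u _ (T.gen_mem u hu) h hh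
    rw [conj_pow]
    constructor
    · intro h1
      have h2 := hM₂n.conj_mem _ h1 c⁻¹
      have h3 : c⁻¹ * (c * T.gen u ^ k * c⁻¹) * c⁻¹⁻¹ = T.gen u ^ k := by group
      rwa [h3] at h2
    · intro h1
      exact hM₂n.conj_mem _ h1 c
  -- the image of `z₀`
  have hFz : T.F z₀ = z₀ := by
    by_contra hne
    obtain ⟨π, hπ1, hπ2, -, hπ4, hπ5⟩ := T.labels 1 (T.F z₀) _ (T.gen_mem _ (T.fwd z₀ hz0))
    obtain ⟨w, hw, hwπ⟩ := hπ2 z₀ rfl
    obtain ⟨y, rfl⟩ := List.length_eq_one_iff.1 hw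
    have h1 := (hπ4 [y] (T.deg 1 (π [y])) rfl).2 dvd_rfl
    have h2 := hπ5 [y] rfl
    rw [hwπ] at h1 h2
    have h3 := (hsec y _ h1).1 (M.pow_mem (hz1 _ (T.fwd z₀ hz0) hne) _)
    have h4 := (hgenconj z₀ hz0 _ h2 1).1 (by rw [pow_one]; exact h3)
    have h5 := (hord2 1).1 h4
    exact hq1 (Nat.dvd_one.1 h5)
  -- the labels over `z₀`
  obtain ⟨π, hπ1, hπ2, -, hπ4, hπ5⟩ := T.labels 1 z₀ _ (T.gen_mem _ hz0)
  have hlab : ∀ u, T.F u = z₀ → ∃ y : X, T.S.wact (T.gen z₀ ^ T.deg 1 u) [y] = [y] ∧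
      T.S.wsec (T.gen z₀ ^ T.deg 1 u) [y] ∈ T.In u := by
    intro u hu
    obtain ⟨w, hw, hwπ⟩ := hπ2 u hu
    obtain ⟨y, rfl⟩ := List.length_eq_one_iff.1 hw
    have h1 := (hπ4 [y] (T.deg 1 (π [y])) rfl).2 dvd_rfl
    have h2 := hπ5 [y] rfl
    rw [hwπ] at h1 h2
    exact ⟨y, h1, h2⟩
  have hcop : Nat.Coprime (T.deg 1 z₀) p := by
    rw [Nat.coprime_comm, Nat.Prime.coprime_iff_not_dvd hp]
    rintro ⟨d', hd'⟩
    obtain ⟨q', hq'⟩ := hpq
    obtain ⟨y, h1, h2⟩ := hlab z₀ hFz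
    have h3 : (T.gen z₀ ^ T.deg 1 z₀) ^ q' ∈ M := by
      rw [← pow_mul, hord1, hd', hq']
      exact ⟨d', by ring⟩
    have h4 : T.S.wact ((T.gen z₀ ^ T.deg 1 z₀) ^ q') [y] = [y] := (T.S.St [y]).pow_mem h1 q'
    have h5 := (hsec y _ h4).1 h3
    have h6 : T.S.wsec ((T.gen z₀ ^ T.deg 1 z₀) ^ q') [y] =
        T.S.wsec (T.gen z₀ ^ T.deg 1 z₀) [y] ^ q' := by
      have := map_pow (T.S.secHom [y]) ⟨_, h1⟩ q'
      simpa using this
    rw [h6] at h5
    have h7 := (hord2 q').1 ((hgenconj z₀ hz0 _ h2 q').1 h5)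
    have hq'0 : 0 < q' := by
      rcases Nat.eq_zero_or_pos q' with h | h
      · rw [h, mul_zero] at hq'
        exact absurd hq' hfi
      · exact h
    have h8 := Nat.le_of_dvd hq'0 h7
    rw [hq'] at h8
    have h9 := hp.two_le
    nlinarith
  obtain ⟨u, hu, hne, hnd⟩ := hAQ z₀ hz0 hFz p hp hcop
  have hFu : T.F u = z₀ := (T.mem_fib 1 z₀ u).1 hu
  obtain ⟨y, h1, h2⟩ := hlab u hFu
  apply hnd
  apply hpq.trans
  rw [← hord1, hsec y _ h1]
  by_cases huP : u ∈ T.P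
  · have := (hgenconj u huP _ h2 1).2 (by rw [pow_one]; exact hz2 u huP hne)
    rwa [pow_one] at this
  · rw [T.In_triv u huP _ h2]
    exact M₂.one_mem

end PCFSys

theorem stmt_A4 : Stmt_A4 := by
  intro G X _ _ T hNE hAQ M hM hfi
  have hS := T.selfrep
  obtain ⟨x₀⟩ := T.nonempty72
  set W : ℕ → List X := fun n => List.replicate n x₀ with hW
  have hWl : ∀ n, (W n).length = n := fun n => by simp [hW]
  have heq : ∀ (L : Subgroup G), L.Normal → ∀ u v : List X, u.length = v.length →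
      T.S.secSub L u = T.S.secSub L v := fun L hL u v h =>
    le_antisymm (T.S.secSub_eq72 hS T.levTrans72 hL h) (T.S.secSub_eq72 hS T.levTrans72 hL h.symm)
  have hMi : M.index ≠ 0 := hfi.index_ne_zero
  have hpos : ∀ w, (T.S.secSub M w).index ≠ 0 := fun w h => by
    have := T.S.index_secSub_dvd72 hS hM w
    rw [h, zero_dvd_iff] at this
    exact hMi this
  -- the smallest index
  obtain ⟨n₁, hn₁⟩ : ∃ n₁, ∀ n, (T.S.secSub M (W n₁)).index ≤ (T.S.secSub M (W n)).index := by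
    have hne : (Set.range fun n => (T.S.secSub M (W n)).index).Nonempty := ⟨_, ⟨0, rfl⟩⟩
    obtain ⟨n₁, hn₁⟩ := Nat.sInf_mem hne
    refine ⟨n₁, fun n => ?_⟩
    have h1 : sInf (Set.range fun n => (T.S.secSub M (W n)).index) ≤
        (T.S.secSub M (W n)).index := Nat.sInf_le ⟨n, rfl⟩
    simp only at hn₁
    rw [hn₁]
    exact h1
  set L := T.S.secSub M (W n₁) with hL
  have hLn : L.Normal := T.S.secSub_normal72 hS hM _
  have hLi : L.index ≠ 0 := hpos _
  have hst : ∀ u : List X, (T.S.secSub L u).index = L.index := by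
    intro u
    apply le_antisymm
    · exact Nat.le_of_dvd (Nat.pos_of_ne_zero hLi) (T.S.index_secSub_dvd72 hS hLn u)
    · have h1 := hn₁ (n₁ + u.length)
      rw [hL, ← T.S.secSub_append72, heq M hM (W n₁ ++ u) (W (n₁ + u.length)) (by simp [hWl])]
      exact h1
  have h1 := T.stable_eq_top72 hNE hAQ L hLn hLi hst
  refine ⟨n₁, fun w hw => ?_⟩
  have h2 : w = w.take n₁ ++ w.drop n₁ := (List.take_append_drop n₁ w).symm
  have h3 : (w.take n₁).length = (W n₁).length := by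
    rw [hWl, List.length_take]
    omega
  rw [h2, T.S.secSub_append72, heq M hM _ _ h3]
  have h4 := hst (w.drop n₁)
  rw [h1] at h4
  exact Subgroup.index_eq_one.1 h4

end PCF
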