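import Pool.Agent.Work.MP_80ff4e_al.Interface2

/-!
# MP_80ff4e_al, block A5
-/

set_option autoImplicit false

namespace PCF

section

variable {G X : Type} [Group G] [Fintype X] (T : PCFSys G X)

namespace PCFSys

lemma deg_succ72 (n : ℕ) (u : ℂ) : T.deg (n + 1) u = T.deg n (T.F u) * T.deg 1 u := by
  have := T.deg_add n 1 u
  simpa using this

lemma deg_eq_prod72 (n : ℕ) (u : ℂ) : T.deg n u = ∏ i ∈ Finset.range n, T.deg 1 (T.F^[i] u) := by
  induction n generalizing u with
  | zero => simp [T.deg_zero]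
  | succ n ih =>
    rw [T.deg_succ72, ih, Finset.prod_range_succ']
    simp [Function.iterate_succ_apply]

/-- The finite set of the points of degree at least two. -/
noncomputable def critF72 : Finset ℂ := T.P.biUnion (fun z => T.fib 1 z)

lemma mem_critF72 {u : ℂ} (h : 2 ≤ T.deg 1 u) : u ∈ T.critF72 := by
  classical
  refine Finset.mem_biUnion.2 ⟨T.F u, T.crit u h, ?_⟩
  rw [T.mem_fib]; rfl

/-- Over a nonperiodic point the degrees divide a fixed number. -/
lemma deg_dvd_of_not_periodic72 {z : ℂ} (hz : ∀ p, 1 ≤ p → T.F^[p] z ≠ z) (n : ℕ) (u : ℂ)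
    (hu : T.F^[n] u = z) : T.deg n u ∣ ∏ c ∈ T.critF72, T.deg 1 c := by
  classical
  rw [T.deg_eq_prod72]
  have hinj : Set.InjOn (fun i => T.F^[i] u) (Finset.range n : Set ℕ) := by
    have key : ∀ i j, i < j → j < n → T.F^[i] u ≠ T.F^[j] u := by
      intro i j hij hj heq
      apply hz (j - i) (by omega)
      have h1 : T.F^[n] u = T.F^[n - i] (T.F^[i] u) := by
        rw [← Function.iterate_add_apply]
        congr 2
        omega
      have h2 : T.F^[j - i] (T.F^[i] u) = T.F^[i] u := by
        rw [← Function.iterate_add_apply, Nat.sub_add_cancel hij.le, ← heq]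
      rw [← hu, h1, ← Function.iterate_add_apply, add_comm, Function.iterate_add_apply, h2]
    intro i hi j hj heq
    simp only [Finset.coe_range, Set.mem_Iio] at hi hj
    rcases lt_trichotomy i j with h | h | h
    · exact absurd heq (key i j h hj)
    · exact h
    · exact absurd heq.symm (key j i h hi)
  have h1 : ∏ i ∈ Finset.range n, T.deg 1 (T.F^[i] u) =
      ∏ c ∈ (Finset.range n).image (fun i => T.F^[i] u), T.deg 1 c :=
    (Finset.prod_image hinj).symm
  rw [h1]
  have h2 : ∏ c ∈ (Finset.range n).image (fun i => T.F^[i] u), T.deg 1 c =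
      ∏ c ∈ ((Finset.range n).image (fun i => T.F^[i] u)).filter (fun c => c ∈ T.critF72),
        T.deg 1 c := by
    symm
    apply Finset.prod_filter_of_ne
    intro c _ hc
    apply T.mem_critF72
    have := T.deg_pos 1 c
    omega
  rw [h2]
  apply Finset.prod_dvd_prod_of_subset
  intro c hc
  exact (Finset.mem_filter.1 hc).2

/-- The generator at a nonperiodic point has finite order. -/
lemma gen_pow_of_not_periodic72 {z : ℂ} (hzP : z ∈ T.P) (hz : ∀ p, 1 ≤ p → T.F^[p] z ≠ z) :
    ∃ N : ℕ, 0 < N ∧ T.gen z ^ N = 1 := by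
  classical
  refine ⟨∏ c ∈ T.critF72, T.deg 1 c, Finset.prod_pos fun c _ => T.deg_pos 1 c, ?_⟩
  apply T.faithful
  intro w
  obtain ⟨π, hπ1, -, -, hπ4, -⟩ := T.labels w.length z (T.gen z) (T.gen_mem z hzP)
  exact (hπ4 w _ rfl).2 (T.deg_dvd_of_not_periodic72 hz _ _ (hπ1 w rfl))

end PCFSys

end

lemma hom_one72 {G : Type} [Group G] (φ : G → ℚ) (h : ∀ a b, φ (a * b) = φ a + φ b) : φ 1 = 0 := by
  have := h 1 1
  simp at this
  exact this

lemma hom_pow72 {G : Type} [Group G] (φ : G → ℚ) (h : ∀ a b, φ (a * b) = φ a + φ b) (g : G)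
    (n : ℕ) : φ (g ^ n) = n * φ g := by
  induction n with
  | zero => simp [hom_one72 φ h]
  | succ n ih => rw [pow_succ, h, ih]; push_cast; ring

lemma hom_inv72 {G : Type} [Group G] (φ : G → ℚ) (h : ∀ a b, φ (a * b) = φ a + φ b) (g : G) :
    φ g⁻¹ = - φ g := by
  have h1 := h g⁻¹ g
  rw [inv_mul_cancel, hom_one72 φ h] at h1
  linarith

lemma hom_conj72 {G : Type} [Group G] (φ : G → ℚ) (h : ∀ a b, φ (a * b) = φ a + φ b) (k g : G) :
    φ (k * g * k⁻¹) = φ g := by
  rw [h, h, hom_inv72 φ h]; ring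

lemma SelfSim.wact_pow_fix72 {G X : Type} [Group G] (S : SelfSim G X) {g : G} {w : List X}
    (h : S.wact g w = w) (n : ℕ) : S.wact (g ^ n) w = w := by
  exact (S.St w).pow_mem h n

lemma SelfSim.wsec_pow_fix72 {G X : Type} [Group G] (S : SelfSim G X) {g : G} {w : List X}
    (h : S.wact g w = w) (n : ℕ) : S.wsec (g ^ n) w = S.wsec g w ^ n := by
  have h1 := map_pow (S.secHom w) ⟨g, h⟩ n
  simpa using h1

theorem stmt_A5 : Stmt_A5 := by
  intro G X _ _ T hT n ζ hadd hrel
  classical
  -- constant on inertia classes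
  have hIn : ∀ w u, ∀ g ∈ T.In u, ∀ h ∈ T.In u, ζ w g = ζ w h := by
    intro w u g hg h hh
    obtain ⟨k, rfl⟩ := T.In_single u g hg h hh
    rw [hom_conj72 _ (hadd w)]
  have hInP : ∀ w u, u ∉ T.P → ∀ g ∈ T.In u, ζ w g = 0 := by
    intro w u hu g hg
    rw [T.In_triv u hu g hg, hom_one72 _ (hadd w)]
  have hInN : ∀ w u, (¬ ∃ p, 1 ≤ p ∧ T.F^[p] u = u) → ∀ g ∈ T.In u, ζ w g = 0 := by
    intro w u hu g hg
    by_cases hP : u ∈ T.P
    · rw [hIn w u g hg _ (T.gen_mem u hP)]
      obtain ⟨N, hN, hN1⟩ := T.gen_pow_of_not_periodic72 hP (fun p hp h => hu ⟨p, hp, h⟩)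
      have h1 := hom_pow72 _ (hadd w) (T.gen u) N
      rw [hN1, hom_one72 _ (hadd w)] at h1
      have h2 : (N : ℚ) ≠ 0 := by positivity
      rcases mul_eq_zero.1 h1.symm with h3 | h3
      · exact absurd h3 h2
      · exact h3
    · exact hInP w u hP g hg
  -- periodic points
  have hper : ∀ y ∈ T.P, (∃ p, 1 ≤ p ∧ T.F^[p] y = y) → ∀ w : List X, w.length = n →
      ζ w (T.gen y) = 0 := by
    intro y hy hyp
    apply hT n y hy hyp (fun w => ζ w (T.gen y))
    intro g hg π hπ
    obtain ⟨hπ1, hπ2, hπ3, hπ4, hπ5⟩ := hπ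
    set z := T.F^[n] y with hz
    set N := ∏ u ∈ T.fib n z, T.deg n u with hN
    have hfibmem : ∀ w : List X, w.length = n → π w ∈ T.fib n z := fun w hw =>
      (T.mem_fib n z _).2 (hπ1 w hw)
    have hdvd : ∀ w : List X, w.length = n → T.deg n (π w) ∣ N := fun w hw =>
      Finset.dvd_prod_of_mem _ (hfibmem w hw)
    have hgN : g ^ N ∈ T.S.LSt n := fun w hw => (hπ4 w N hw).2 (hdvd w hw)
    have h0 := hrel _ hgN
    have hterm : ∀ w ∈ lev X n, ζ w (T.S.wsec (g ^ N) w) =
        if π w = y then ((N / T.deg n y : ℕ) : ℚ) * ζ w (T.gen y) else 0 := by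
      intro w hw
      rw [mem_lev] at hw
      obtain ⟨m, hm⟩ := hdvd w hw
      have hfix : T.S.wact (g ^ T.deg n (π w)) w = w := (hπ4 w _ hw).2 dvd_rfl
      have h1 : T.S.wsec (g ^ N) w = T.S.wsec (g ^ T.deg n (π w)) w ^ m := by
        rw [hm, pow_mul, T.S.wsec_pow_fix72 hfix]
      have h2 := hπ5 w hw
      rw [h1, hom_pow72 _ (hadd w)]
      split_ifs with hwy
      · have h3 : N / T.deg n y = m := by
          rw [hm, ← hwy]
          exact Nat.mul_div_cancel_left m (T.deg_pos n _)
        rw [h3]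
        congr 1
        rw [hwy] at h2 ⊢
        exact hIn w y _ h2 _ (T.gen_mem y hy)
      · have h3 : ζ w (T.S.wsec (g ^ T.deg n (π w)) w) = 0 := by
          apply hInN w (π w) _ _ h2
          rintro ⟨p, hp, hpw⟩
          apply hwy
          -- two periodic points with the same image
          obtain ⟨q, hq, hqy⟩ := hyp
          have e1 : T.F^[p * q] (π w) = π w := by
            rw [Function.iterate_mul]
            exact Function.IsFixedPt.iterate hpw q
          have e2 : T.F^[p * q] y = y := by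
            rw [mul_comm, Function.iterate_mul]
            exact Function.IsFixedPt.iterate hqy p
          have e3 : ∀ v, T.F^[p * q] v = v → T.F^[p * q * n - n] (T.F^[n] v) = v := by
            intro v hv
            rw [← Function.iterate_add_apply]
            have hpq : 1 ≤ p * q := Nat.mul_pos hp hq
            have : p * q * n - n + n = p * q * n := by
              apply Nat.sub_add_cancel
              exact Nat.le_mul_of_pos_left n hpq
            rw [this, Function.iterate_mul]
            exact Function.IsFixedPt.iterate hv n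
          rw [← e3 _ e1, ← e3 _ e2, hπ1 w hw]
        rw [h3, mul_zero]
    rw [Finset.sum_congr rfl hterm, ← Finset.sum_filter, ← Finset.mul_sum] at h0
    have hNy : T.deg n y ∣ N := Finset.dvd_prod_of_mem _ ((T.mem_fib n z y).2 rfl)
    have hN0 : 0 < N := Finset.prod_pos fun u _ => T.deg_pos n u
    have h4 : ((N / T.deg n y : ℕ) : ℚ) ≠ 0 := by
      have := Nat.div_pos (Nat.le_of_dvd hN0 hNy) (T.deg_pos n y)
      positivity
    rcases mul_eq_zero.1 h0 with h5 | h5
    · exact absurd h5 h4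
    · exact h5
  intro w hw
  have hgen : ∀ u ∈ T.P, ζ w (T.gen u) = 0 := by
    intro u hu
    by_cases hp : ∃ p, 1 ≤ p ∧ T.F^[p] u = u
    · exact hper u hu hp w hw
    · exact hInN w u hp _ (T.gen_mem u hu)
  intro g
  have hg : g ∈ Subgroup.closure (T.gen '' (T.P : Set ℂ)) := by rw [T.gen_top]; trivial
  induction hg using Subgroup.closure_induction with
  | mem x hx =>
    obtain ⟨u, hu, rfl⟩ := hx
    exact hgen u hu
  | one => exact hom_one72 _ (hadd w)
  | mul x y _ _ hx hy => rw [hadd, hx, hy, add_zero]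
  | inv x _ hx => rw [hom_inv72 _ (hadd w), hx, neg_zero]

end PCF
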