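import Pool.Agent.Work.MP_80ff4e_al.Interface2

/-!
# MP_80ff4e_al, block A6
-/

set_option autoImplicit false

namespace PCF

section Dihedral

variable {G : Type} [Group G] {a b : G}

lemma dih_conj72 (ha : a * a = 1) (hb : b * b = 1) (k : ℤ) :
    a * (a * b) ^ k * a = (a * b) ^ (-k) := by
  have ha' : a⁻¹ = a := inv_eq_of_mul_eq_one_left ha
  have hb' : b⁻¹ = b := inv_eq_of_mul_eq_one_left hb
  have h1 : a * (a * b) ^ k * a = (a * (a * b) * a⁻¹) ^ k := by
    rw [conj_zpow, ha']
  have h2 : a * (a * b) * a⁻¹ = (a * b)⁻¹ := by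
    rw [ha', mul_inv_rev, ha', hb', ← mul_assoc, ha, one_mul]
  rw [h1, h2, inv_zpow, zpow_neg]

lemma dih_form72 (ha : a * a = 1) (hb : b * b = 1) (g : G)
    (hg : g ∈ Subgroup.closure ({a, b} : Set G)) :
    ∃ k : ℤ, g = (a * b) ^ k ∨ g = (a * b) ^ k * a := by
  have ha' : a⁻¹ = a := inv_eq_of_mul_eq_one_left ha
  have hb' : b⁻¹ = b := inv_eq_of_mul_eq_one_left hb
  have hc : ∀ k : ℤ, a * (a * b) ^ k = (a * b) ^ (-k) * a := by
    intro k
    have := dih_conj72 ha hb k
    calc a * (a * b) ^ k = a * (a * b) ^ k * (a * a) := by rw [ha, mul_one]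
      _ = (a * (a * b) ^ k * a) * a := by group
      _ = _ := by rw [this]
  induction hg using Subgroup.closure_induction with
  | mem x hx =>
    rcases hx with rfl | rfl
    · exact ⟨0, Or.inr (by simp)⟩
    · refine ⟨-1, Or.inr ?_⟩
      rw [zpow_neg, zpow_one, mul_inv_rev, ha', hb', mul_assoc, ha, mul_one]
  | one => exact ⟨0, Or.inl (by simp)⟩
  | mul x y _ _ hx hy =>
    obtain ⟨k, rfl | rfl⟩ := hx <;> obtain ⟨l, rfl | rfl⟩ := hy
    · exact ⟨k + l, Or.inl (by rw [zpow_add])⟩
    · exact ⟨k + l, Or.inr (by rw [zpow_add, mul_assoc])⟩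
    · exact ⟨k + -l, Or.inr (by rw [mul_assoc, hc, ← mul_assoc, zpow_add])⟩
    · refine ⟨k + -l, Or.inl ?_⟩
      rw [mul_assoc, ← mul_assoc a, hc, mul_assoc _ a a, ha, mul_one, zpow_add]
  | inv x _ hx =>
    obtain ⟨k, rfl | rfl⟩ := hx
    · exact ⟨-k, Or.inl (by rw [zpow_neg])⟩
    · refine ⟨k, Or.inr ?_⟩
      rw [mul_inv_rev, ha', ← zpow_neg, hc, neg_neg]

end Dihedral

theorem stmt_A6 : Stmt_A6 := by
  intro G X _ _ T z₁ z₂ hne hP hram hbr
  classical
  obtain ⟨hlev, hfi⟩ := hbr
  have hmem : ∀ u, u ∈ T.P ↔ u = z₁ ∨ u = z₂ := by intro u; simp [hP]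
  have hram' : ∀ u, T.F u ∈ T.P → (T.deg 1 u = 1 ∧ u ∈ T.P) ∨ (T.deg 1 u = 2 ∧ u ∉ T.P) := by
    intro u hu
    rcases hram u ((hmem _).1 hu) with h | h
    · exact Or.inl ⟨h.1, (hmem u).2 h.2⟩
    · refine Or.inr ⟨h.1, fun h' => ?_⟩
      rcases (hmem u).1 h' with h' | h'
      · exact h.2.1 h'
      · exact h.2.2 h'
  -- degrees
  have hdeg : ∀ n u, T.F^[n] u ∈ T.P →
      (T.deg n u = 1 ∧ u ∈ T.P) ∨ (T.deg n u = 2 ∧ u ∉ T.P) := by
    intro n
    induction n with
    | zero => intro u hu; exact Or.inl ⟨T.deg_zero u, hu⟩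
    | succ n ih =>
      intro u hu
      have h1 : T.deg (n + 1) u = T.deg n (T.F u) * T.deg 1 u := by
        have := T.deg_add n 1 u
        simpa using this
      have hu' : T.F^[n] (T.F u) ∈ T.P := by simpa [Function.iterate_succ_apply] using hu
      rcases ih (T.F u) hu' with ⟨h2, h3⟩ | ⟨h2, h3⟩
      · rcases hram' u h3 with ⟨h4, h5⟩ | ⟨h4, h5⟩
        · exact Or.inl ⟨by rw [h1, h2, h4], h5⟩
        · exact Or.inr ⟨by rw [h1, h2, h4], h5⟩
      · have h4 : T.deg 1 u = 1 := by
          by_contra h5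
          have h6 : 2 ≤ T.deg 1 u := by
            have := T.deg_pos 1 u
            omega
          exact h3 (T.crit u h6)
        exact Or.inr ⟨by rw [h1, h2, h4], fun h5 => h3 (T.fwd u h5)⟩
  have hsq : ∀ z ∈ T.P, T.gen z * T.gen z = 1 := by
    intro z hz
    apply T.faithful
    intro w
    obtain ⟨π, hπ1, -, -, hπ4, -⟩ := T.labels w.length z (T.gen z) (T.gen_mem z hz)
    have h1 := (hπ4 w 2 rfl).2
    rw [pow_two] at h1
    apply h1
    have h2 : T.F^[w.length] (π w) ∈ T.P := by rw [hπ1 w rfl]; exact hz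
    rcases hdeg _ _ h2 with h3 | h3
    · rw [h3.1]; exact one_dvd _
    · rw [h3.1]
  set a := T.gen z₁ with ha
  set b := T.gen z₂ with hb
  have ha2 : a * a = 1 := hsq z₁ ((hmem _).2 (Or.inl rfl))
  have hb2 : b * b = 1 := hsq z₂ ((hmem _).2 (Or.inr rfl))
  have hgen : ∀ g : G, ∃ k : ℤ, g = (a * b) ^ k ∨ g = (a * b) ^ k * a := by
    intro g
    apply dih_form72 ha2 hb2 g
    have h1 : (T.gen '' (T.P : Set ℂ)) = {a, b} := by
      rw [hP]; simp [Set.image_insert_eq, ha, hb]
    rw [← h1, T.gen_top]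
    trivial
  set r := a * b with hr
  have ha' : a⁻¹ = a := inv_eq_of_mul_eq_one_left ha2
  -- conjugates of powers of r
  have hconj : ∀ (g : G) (k : ℤ), g * r ^ k * g⁻¹ = r ^ k ∨ g * r ^ k * g⁻¹ = r ^ (-k) := by
    intro g k
    obtain ⟨l, rfl | rfl⟩ := hgen g
    · left
      rw [← zpow_add, ← zpow_neg, ← zpow_add]
      congr 1
      ring
    · right
      have h1 := dih_conj72 ha2 hb2 k
      rw [← hr] at h1
      calc r ^ l * a * r ^ k * (r ^ l * a)⁻¹ = r ^ l * (a * r ^ k * a⁻¹) * (r ^ l)⁻¹ := by group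
        _ = r ^ l * r ^ (-k) * (r ^ l)⁻¹ := by rw [ha', h1]
        _ = r ^ (-k) := by
          rw [← zpow_neg, ← zpow_add, ← zpow_add]
          congr 1
          ring
  -- G is infinite
  have hinf : Infinite G := by
    by_contra hfin
    rw [not_infinite_iff_finite] at hfin
    have : Fintype G := Fintype.ofFinite G
    obtain ⟨x₀⟩ : Nonempty X := Fintype.card_pos_iff.1 (by have := T.two_le; omega)
    have h1 : ∀ n : ℕ, (lev X n).card ≤ Fintype.card G := by
      intro n
      have h2 : lev X n ⊆ Finset.univ.image (fun g : G => T.S.wact g (List.replicate n x₀)) := by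
        intro w hw
        rw [mem_lev] at hw
        obtain ⟨g, hg⟩ := hlev (List.replicate n x₀) w (by simp [hw])
        exact Finset.mem_image.2 ⟨g, Finset.mem_univ _, hg⟩
      exact (Finset.card_le_card h2).trans Finset.card_image_le
    have h3 : (lev X (Fintype.card G)).card = Fintype.card X ^ Fintype.card G := by
      rw [lev, Finset.card_map, Finset.card_univ, card_vector]
    have h4 := h1 (Fintype.card G)
    rw [h3] at h4
    have h5 : Fintype.card G < 2 ^ Fintype.card G := Nat.lt_two_pow_self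
    have h6 : 2 ^ Fintype.card G ≤ Fintype.card X ^ Fintype.card G :=
      Nat.pow_le_pow_left T.two_le _
    omega
  -- r has infinite order
  have hrinf : ∀ k : ℤ, r ^ k = 1 → k = 0 := by
    intro k hk
    by_contra hk0
    have hfo : IsOfFinOrder r := isOfFinOrder_iff_zpow_eq_one.2 ⟨k, hk0, hk⟩
    have hfin : (Subgroup.zpowers r : Set G).Finite := finite_zpowers.2 hfo
    have h2 : (Set.univ : Set G) ⊆ (Subgroup.zpowers r : Set G) ∪
        (fun g => g * a) '' (Subgroup.zpowers r : Set G) := by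
      intro g _
      obtain ⟨l, rfl | rfl⟩ := hgen g
      · exact Or.inl ⟨l, rfl⟩
      · exact Or.inr ⟨r ^ l, ⟨l, rfl⟩, rfl⟩
    have h3 : (Set.univ : Set G).Finite := (hfin.union (hfin.image _)).subset h2
    exact Set.infinite_univ h3
  -- two different letters
  obtain ⟨x, y, hxy⟩ : ∃ x y : X, x ≠ y := Fintype.exists_pair_of_one_lt_card T.two_le
  -- rigid stabilisers of different words of length one
  have hcommR : ∀ u v : List X, u.length = 1 → v.length = 1 → u ≠ v → ∀ g ∈ T.S.Rist u,
      ∀ h ∈ T.S.Rist v, g * h = h * g := by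
    intro u v hu hv huv g hg h hh
    obtain ⟨p, rfl⟩ := List.length_eq_one_iff.1 hu
    obtain ⟨q, rfl⟩ := List.length_eq_one_iff.1 hv
    have hpq : p ≠ q := fun h => huv (by rw [h])
    have key : ∀ (c : X) (k : G), k ∈ T.S.Rist [c] → ∀ w, T.S.wact k w = w ∨
        (∃ w', w = c :: w') := by
      intro c k hk w
      by_cases hw : [c] <+: w
      · right
        obtain ⟨w', rfl⟩ := hw
        exact ⟨w', rfl⟩
      · left
        exact hk w hw
    have hfix : ∀ (c : X) (k : G), k ∈ T.S.Rist [c] → T.S.act k c = c := by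
      intro c k hk
      have hfixc : ∀ e : X, e ≠ c → T.S.act k e = e := by
        intro e he
        have h1 := hk [e] (by
          rintro ⟨w', hw'⟩
          simp only [List.singleton_append, List.cons.injEq] at hw'
          exact he hw'.1.symm)
        simpa using h1
      by_contra hne'
      have h2 := hfixc (T.S.act k c) hne'
      exact hne' ((T.S.act k).injective h2)
    have hone : ∀ (c e : X) (k : G), k ∈ T.S.Rist [c] → e ≠ c → ∀ w, T.S.wact k (e :: w) = e :: w := by
      intro c e k hk he w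
      apply hk
      rintro ⟨w', hw'⟩
      simp only [List.singleton_append, List.cons.injEq] at hw'
      exact he hw'.1.symm
    have hcons : ∀ (c : X) (k : G), k ∈ T.S.Rist [c] → ∀ w, T.S.wact k (c :: w) =
        c :: T.S.wact (T.S.sec k c) w := by
      intro c k hk w
      rw [T.S.wact_cons, hfix c k hk]
    have hgh : ∀ w, T.S.wact (g * h) w = T.S.wact (h * g) w := by
      intro w
      rw [T.S.wact_mul, T.S.wact_mul]
      cases w with
      | nil => simp
      | cons e w =>
        by_cases hep : e = p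
        · subst hep
          rw [hone q e h hh hpq, hcons e g hg, hone q e h hh hpq]
        · by_cases heq : e = q
          · subst heq
            rw [hone p e g hg hep, hcons e h hh, hone p e g hg hep]
          · rw [hone p e g hg hep, hone q e h hh heq, hone p e g hg hep]
    have h1 : (g * h) * (h * g)⁻¹ = 1 := by
      apply T.faithful
      intro w
      rw [T.S.wact_mul]
      rw [hgh, ← T.S.wact_mul, mul_inv_cancel, T.S.wact_one]
    exact mul_inv_eq_one.1 h1
  have hconjR : ∀ (g : G) (v : List X) (k : G), k ∈ T.S.Rist v → g * k * g⁻¹ ∈ T.S.Rist (T.S.wact g v) := by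
    intro g v k hk u hu
    rw [T.S.wact_mul, T.S.wact_mul]
    rw [hk, T.S.wact_wact_inv]
    rintro ⟨t, ht⟩
    apply hu
    refine ⟨T.S.wact (T.S.wsec g v) t, ?_⟩
    rw [← T.S.wact_append, ht, T.S.wact_wact_inv]
  -- no nontrivial power of r in a rigid stabiliser
  have hdisj : ∀ (v : List X), v.length = 1 → ∀ k : ℤ, r ^ k ∈ T.S.Rist v → k = 0 := by
    intro v hv k hk
    obtain ⟨p, rfl⟩ := List.length_eq_one_iff.1 hv
    obtain ⟨q, hq⟩ : ∃ q : X, q ≠ p := by
      by_cases h : x = p
      · exact ⟨y, fun h' => hxy (h.trans h'.symm)⟩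
      · exact ⟨x, h⟩
    obtain ⟨g, hg⟩ := hlev [p] [q] rfl
    have h1 := hconjR g [p] (r ^ k) hk
    rw [hg] at h1
    have h2 : r ^ k ∈ T.S.Rist [q] := by
      rcases hconj g k with h3 | h3
      · rwa [h3] at h1
      · rw [h3] at h1
        have := (T.S.Rist [q]).inv_mem h1
        rwa [← zpow_neg, neg_neg] at this
    have h3 : r ^ k = 1 := by
      apply T.faithful
      intro w
      cases w with
      | nil => simp
      | cons e w =>
        by_cases hep : e = p
        · apply h2
          rintro ⟨w', hw'⟩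
          simp only [List.singleton_append, List.cons.injEq] at hw'
          exact hq (hw'.1.trans hep)
        · apply hk
          rintro ⟨w', hw'⟩
          simp only [List.singleton_append, List.cons.injEq] at hw'
          exact hep hw'.1.symm
    exact hrinf k h3
  have hsqR : ∀ (v : List X), v.length = 1 → ∀ g ∈ T.S.Rist v, g * g = 1 := by
    intro v hv g hg
    obtain ⟨k, rfl | rfl⟩ := hgen g
    · rw [hdisj v hv k hg]; simp
    · have h1 : r ^ k * a * (r ^ k * a) = r ^ k * (a * r ^ k * a) := by group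
      rw [h1, dih_conj72 ha2 hb2 k, ← zpow_add]
      simp
  set R := ⨆ v : {v : List X // v.length = 1}, T.S.Rist v.1 with hR
  have hRfi : R.FiniteIndex := hfi 1
  have hc1 : ∀ g ∈ R, ∀ v : {v : List X // v.length = 1}, ∀ h ∈ T.S.Rist v.1, g * h = h * g := by
    intro g hg v h hh
    have hle : R ≤ Subgroup.centralizer {h} := by
      apply iSup_le
      intro v' g' hg'
      rw [Subgroup.mem_centralizer_iff]
      rintro h' rfl
      by_cases hvv : v' = v
      · subst hvv
        -- both in the same group of exponent two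
        have e1 := hsqR v'.1 v'.2 _ hh
        have e2 := hsqR v'.1 v'.2 _ hg'
        have e3 := hsqR v'.1 v'.2 _ ((T.S.Rist v'.1).mul_mem hh hg')
        have i1 : h'⁻¹ = h' := inv_eq_of_mul_eq_one_left e1
        have i2 : g'⁻¹ = g' := inv_eq_of_mul_eq_one_left e2
        have i3 : (h' * g')⁻¹ = h' * g' := inv_eq_of_mul_eq_one_left e3
        rw [mul_inv_rev, i1, i2] at i3
        exact i3.symm
      · exact (hcommR v'.1 v.1 v'.2 v.2 (fun h => hvv (Subtype.ext h)) g' hg' h' hh).symm
    have := hle hg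
    rw [Subgroup.mem_centralizer_iff] at this
    exact (this h rfl).symm
  have hc2 : ∀ g ∈ R, ∀ h ∈ R, g * h = h * g := by
    intro g hg h hh
    have hle : R ≤ Subgroup.centralizer {g} := by
      apply iSup_le
      intro v' g' hg'
      rw [Subgroup.mem_centralizer_iff]
      rintro h' rfl
      exact hc1 h' hg v' g' hg'
    have := hle hh
    rw [Subgroup.mem_centralizer_iff] at this
    exact this g rfl
  have hsq2 : ∀ g ∈ R, g * g = 1 := by
    intro g hg
    have : R ≤ R ⊓ R := by simp
    rw [hR] at hg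
    induction hg using Subgroup.iSup_induction' with
    | hp v g hg => exact hsqR v.1 v.2 g hg
    | h1 => simp
    | hmul g h hg hh ihg ihh =>
      have h1 := hc2 g hg h hh
      calc g * h * (g * h) = g * (h * g) * h := by group
        _ = g * (g * h) * h := by rw [h1]
        _ = (g * g) * (h * h) := by group
        _ = 1 := by rw [ihg, ihh, one_mul]
  -- some positive power of r is in R
  obtain ⟨k, hk0, hk⟩ : ∃ k : ℕ, 0 < k ∧ r ^ k ∈ R := by
    obtain ⟨k, hk0, -, hk⟩ := Subgroup.exists_pow_mem_of_index_ne_zero hRfi.index_ne_zero r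
    exact ⟨k, hk0, hk⟩
  have h1 := hsq2 _ hk
  rw [← pow_add] at h1
  have h2 := hrinf ((k + k : ℕ) : ℤ) (by rw [zpow_natCast]; exact h1)
  omega

end PCF
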