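import Pool.Agent.Work.MP_80ff4e_al.Interface3
import Pool.Agent.Work.MP_80ff4e_al_helper72.A6
import Pool.Agent.Work.MP_80ff4e_al_helper82.L

/-!
# MP_80ff4e_al, block CH
-/

set_option autoImplicit false

open Polynomial

namespace PCF

namespace CH72

lemma pell (d : ℕ) (v : ℂ) :
    (1 - v ^ 2) * ((Chebyshev.U ℂ ((d : ℤ) - 1)).eval v) ^ 2 =
      1 - ((Chebyshev.T ℂ (d : ℤ)).eval v) ^ 2 := by
  obtain ⟨θ, rfl⟩ := Complex.cos_surjective v
  have h1 := Chebyshev.T_complex_cos θ (d : ℤ)
  have h2 := Chebyshev.U_complex_cos θ ((d : ℤ) - 1)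
  have h3 : (((d : ℤ) - 1 : ℤ) : ℂ) + 1 = ((d : ℤ) : ℂ) := by push_cast; ring
  rw [h3] at h2
  have h4 : 1 - Complex.cos θ ^ 2 = Complex.sin θ ^ 2 := by
    rw [← Complex.sin_sq_add_cos_sq θ]; ring
  have h5 : 1 - Complex.cos (((d : ℤ) : ℂ) * θ) ^ 2 = Complex.sin (((d : ℤ) : ℂ) * θ) ^ 2 := by
    rw [← Complex.sin_sq_add_cos_sq (((d : ℤ) : ℂ) * θ)]; ring
  rw [h1, h4, h5, ← h2]
  ring

lemma ode (d : ℕ) (v : ℂ) :
    (1 - v ^ 2) * ((derivative (derivative (Chebyshev.T ℂ (d : ℤ)))).eval v) =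
      v * (derivative (Chebyshev.T ℂ (d : ℤ))).eval v -
        (d : ℂ) ^ 2 * (Chebyshev.T ℂ (d : ℤ)).eval v := by
  have h := congrArg (eval v)
    (Chebyshev.one_sub_X_sq_mul_derivative_derivative_T_eq_poly_in_T (R := ℂ) (d : ℤ))
  simpa using h

lemma derivT (d : ℕ) (v : ℂ) :
    (derivative (Chebyshev.T ℂ (d : ℤ))).eval v =
      (d : ℂ) * (Chebyshev.U ℂ ((d : ℤ) - 1)).eval v := by
  have h := congrArg (eval v) (Chebyshev.T_derivative_eq_U (R := ℂ) (d : ℤ))
  simpa using h

lemma T_one (d : ℕ) : (Chebyshev.T ℂ (d : ℤ)).eval 1 = 1 := Chebyshev.T_eval_one ℂ _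

lemma T_sq_of {d : ℕ} {v : ℂ} (hv : v ^ 2 = 1) : ((Chebyshev.T ℂ (d : ℤ)).eval v) ^ 2 = 1 := by
  have h := pell d v
  rw [hv, sub_self, zero_mul] at h
  linear_combination h

lemma U_ne {d : ℕ} (hd : 1 ≤ d) {v : ℂ} (hv : v ^ 2 = 1) :
    (Chebyshev.U ℂ ((d : ℤ) - 1)).eval v ≠ 0 := by
  have h := ode d v
  rw [hv, sub_self, zero_mul, derivT] at h
  intro h0
  rw [h0] at h
  have h1 := T_sq_of (d := d) hv
  have hd' : (d : ℂ) ≠ 0 := by exact_mod_cast (by omega : d ≠ 0)
  have h2 : (Chebyshev.T ℂ (d : ℤ)).eval v = 0 := by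
    have h3 : (d : ℂ) ^ 2 * (Chebyshev.T ℂ (d : ℤ)).eval v = 0 := by linear_combination h
    rcases mul_eq_zero.1 h3 with h4 | h4
    · exact absurd h4 (pow_ne_zero _ hd')
    · exact h4
  rw [h2] at h1
  norm_num at h1

lemma eq_of_sq {v : ℂ} (hv : v ^ 2 = 1) : v = 1 ∨ v = -1 := by
  have h : (v - 1) * (v + 1) = 0 := by linear_combination hv
  rcases mul_eq_zero.1 h with h | h
  · left; linear_combination h
  · right; linear_combination h

/-- The critical point `cos (k π / d)`. -/
lemma crit_point {d k : ℕ} (hk : 0 < k) (hkd : k < d) : ∃ v : ℂ,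
    (Chebyshev.U ℂ ((d : ℤ) - 1)).eval v = 0 ∧ (Chebyshev.T ℂ (d : ℤ)).eval v = (-1) ^ k := by
  set θ : ℝ := k * Real.pi / d with hθ
  have hd0 : (0 : ℝ) < d := by exact_mod_cast (by omega : 0 < d)
  have hθ0 : 0 < θ := by
    have : (0 : ℝ) < k := by exact_mod_cast hk
    positivity
  have hθπ : θ < Real.pi := by
    rw [hθ, div_lt_iff₀ hd0, mul_comm]
    have : (k : ℝ) < d := by exact_mod_cast hkd
    exact mul_lt_mul_of_pos_left this Real.pi_pos
  have hsin : Complex.sin (θ : ℂ) ≠ 0 := by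
    have := Real.sin_pos_of_pos_of_lt_pi hθ0 hθπ
    rw [← Complex.ofReal_sin]
    exact_mod_cast this.ne'
  have hdθ : (d : ℂ) * (θ : ℂ) = k * Real.pi := by
    rw [hθ]
    push_cast
    have : (d : ℂ) ≠ 0 := by exact_mod_cast hd0.ne'
    field_simp
  refine ⟨Complex.cos θ, ?_, ?_⟩
  · have h2 := Chebyshev.U_complex_cos (θ : ℂ) ((d : ℤ) - 1)
    have h3 : (((d : ℤ) - 1 : ℤ) : ℂ) + 1 = (d : ℂ) := by push_cast; ring
    rw [h3, hdθ] at h2
    have h4 : Complex.sin (k * Real.pi) = 0 := Complex.sin_nat_mul_pi k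
    rw [h4] at h2
    rcases mul_eq_zero.1 h2 with h5 | h5
    · exact h5
    · exact absurd h5 hsin
  · have h1 := Chebyshev.T_complex_cos (θ : ℂ) (d : ℤ)
    rw [h1]
    have h3 : (((d : ℤ)) : ℂ) = (d : ℂ) := by push_cast; ring
    rw [h3, hdθ]
    have h4 := congrArg (fun r : ℝ => (r : ℂ)) (Real.cos_nat_mul_pi k)
    simpa using h4

lemma ldeg_le_two {f : ℂ[X]} (hf : 1 ≤ f.natDegree) {u : ℂ}
    (h : (derivative (derivative f)).eval u ≠ 0) : ldeg f u ≤ 2 := by
  by_contra hlt
  push Not at hlt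
  have hne : f - C (f.eval u) ≠ 0 := by
    intro h0
    rw [sub_eq_zero] at h0
    rw [h0, natDegree_C] at hf
    omega
  have h1 := (Polynomial.lt_rootMultiplicity_iff_isRoot_iterate_derivative hne).1 hlt 2 le_rfl
  apply h
  simpa [Polynomial.IsRoot] using h1

end CH72

open CH72 in
theorem stmt_CH (hTOP : Stmt_TOP) (hBR : Stmt_BR) : Stmt_CH := by
  intro f t hd hfin ht hC hbr
  classical
  obtain ⟨α, β, ε, hα, hε, hconj⟩ := hC
  set d := f.natDegree with hdd
  have hd' : (d : ℂ) ≠ 0 := by exact_mod_cast (by omega : d ≠ 0)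
  have hε2 : ε ^ 2 = 1 := by rcases hε with rfl | rfl <;> norm_num
  have hε0 : ε ≠ 0 := by rcases hε with rfl | rfl <;> norm_num
  -- evaluation
  have hev : ∀ v : ℂ, f.eval (α * v + β) = α * (ε * (Chebyshev.T ℂ (d : ℤ)).eval v) + β := by
    intro v
    have h := congrArg (eval v) hconj
    simpa using h
  have hder1 : (derivative f).comp (C α * X + C β) = C ε * derivative (Chebyshev.T ℂ (d : ℤ)) := by
    have h := congrArg derivative hconj
    rw [derivative_comp] at h
    simp only [add_comp, mul_comp, C_comp, X_comp, derivative_add, derivative_mul, derivative_C,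
      derivative_X, zero_mul, mul_one, zero_add, add_zero] at h
    exact mul_left_cancel₀ (C_ne_zero.2 hα) h
  have hev1 : ∀ v : ℂ, (derivative f).eval (α * v + β) =
      ε * (derivative (Chebyshev.T ℂ (d : ℤ))).eval v := by
    intro v
    have h := congrArg (eval v) hder1
    simpa using h
  have hev2 : ∀ v : ℂ, α * (derivative (derivative f)).eval (α * v + β) =
      ε * (derivative (derivative (Chebyshev.T ℂ (d : ℤ)))).eval v := by
    intro v
    have h0 := congrArg derivative hder1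
    rw [derivative_comp] at h0
    have h := congrArg (eval v) h0
    simpa using h
  -- the two points
  set z₁ := α * 1 + β with hz₁
  set z₂ := α * (-1) + β with hz₂
  have hz12 : z₁ ≠ z₂ := by
    intro h
    apply hα
    have : α * 2 = 0 := by rw [hz₁, hz₂] at h; linear_combination h
    rcases mul_eq_zero.1 this with h | h
    · exact h
    · norm_num at h
  have hpm : ∀ v : ℂ, v ^ 2 = 1 → α * v + β = z₁ ∨ α * v + β = z₂ := by
    intro v hv
    rcases eq_of_sq hv with rfl | rfl
    · exact Or.inl rfl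
    · exact Or.inr rfl
  have hinv : ∀ v : ℂ, α * v + β = z₁ ∨ α * v + β = z₂ → v ^ 2 = 1 := by
    intro v hv
    rcases hv with hv | hv
    · have : α * (v - 1) = 0 := by rw [hz₁] at hv; linear_combination hv
      rcases mul_eq_zero.1 this with h | h
      · exact absurd h hα
      · have : v = 1 := by linear_combination h
        rw [this]; norm_num
    · have : α * (v + 1) = 0 := by rw [hz₂] at hv; linear_combination hv
      rcases mul_eq_zero.1 this with h | h
      · exact absurd h hα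
      · have : v = -1 := by linear_combination h
        rw [this]; norm_num
  have hsurj : ∀ u : ℂ, ∃ v : ℂ, u = α * v + β := fun u => ⟨(u - β) / α, by field_simp; ring⟩
  -- ramification
  obtain ⟨hL1, -, -, -, -, hL6, hL7, -, -⟩ := stmt_L
  have hf1 : 1 ≤ f.natDegree := by omega
  have hram : ∀ u, f.eval u = z₁ ∨ f.eval u = z₂ →
      (ldeg f u = 1 ∧ (u = z₁ ∨ u = z₂)) ∨ (ldeg f u = 2 ∧ u ≠ z₁ ∧ u ≠ z₂) := by
    intro u hu
    obtain ⟨v, rfl⟩ := hsurj u
    rw [hev] at hu
    have h1 := hinv _ hu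
    rw [mul_pow, hε2, one_mul] at h1
    by_cases hv : v ^ 2 = 1
    · left
      refine ⟨?_, hpm v hv⟩
      have h2 : ¬ 2 ≤ ldeg f (α * v + β) := by
        rw [hL7 f hf1, hev1, derivT]
        exact mul_ne_zero hε0 (mul_ne_zero hd' (U_ne (by omega) hv))
      have h3 := hL6 f hf1 (α * v + β)
      omega
    · right
      have hv' : 1 - v ^ 2 ≠ 0 := fun h => hv (by linear_combination -h)
      have hU : (Chebyshev.U ℂ ((d : ℤ) - 1)).eval v = 0 := by
        have h2 := pell d v
        rw [h1, sub_self] at h2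
        rcases mul_eq_zero.1 h2 with h3 | h3
        · exact absurd h3 hv'
        · exact pow_eq_zero_iff (two_ne_zero) |>.1 h3
      refine ⟨?_, ?_, ?_⟩
      · have h2 : 2 ≤ ldeg f (α * v + β) := by
          rw [hL7 f hf1, hev1, derivT, hU, mul_zero, mul_zero]
        have h3 : ldeg f (α * v + β) ≤ 2 := by
          apply ldeg_le_two hf1
          intro h0
          have h4 := hev2 v
          rw [h0, mul_zero] at h4
          have h5 : (derivative (derivative (Chebyshev.T ℂ (d : ℤ)))).eval v = 0 := by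
            rcases mul_eq_zero.1 h4.symm with h | h
            · exact absurd h hε0
            · exact h
          have h6 := ode d v
          rw [h5, mul_zero, derivT, hU, mul_zero, mul_zero, zero_sub] at h6
          have h7 : (d : ℂ) ^ 2 * (Chebyshev.T ℂ (d : ℤ)).eval v = 0 := by linear_combination h6
          rcases mul_eq_zero.1 h7 with h | h
          · exact pow_ne_zero _ hd' h
          · rw [h] at h1
            norm_num at h1
        omega
      · intro h; exact hv (hinv v (Or.inl h))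
      · intro h; exact hv (hinv v (Or.inr h))
  -- the post-critical set
  have hfz : ∀ z, z = z₁ ∨ z = z₂ → f.eval z = z₁ ∨ f.eval z = z₂ := by
    intro z hz
    obtain ⟨v, rfl⟩ := hsurj z
    rw [hev]
    apply hpm
    rw [mul_pow, hε2, one_mul]
    exact T_sq_of (hinv v hz)
  have hit : ∀ n z, it f (n + 1) z = it f n (f.eval z) := fun n z => by
    simp [it, Function.iterate_succ_apply]
  have hitz : ∀ n z, z = z₁ ∨ z = z₂ → it f n z = z₁ ∨ it f n z = z₂ := by
    intro n
    induction n with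
    | zero => intro z hz; exact hz
    | succ n ih => intro z hz; rw [hit]; exact ih _ (hfz z hz)
  have hcv : ∀ v : ℂ, (Chebyshev.U ℂ ((d : ℤ) - 1)).eval v = 0 →
      α * (ε * (Chebyshev.T ℂ (d : ℤ)).eval v) + β ∈ postCrit f := by
    intro v hv
    refine ⟨α * v + β, ?_, 1, le_rfl, ?_⟩
    · rw [hev1, derivT, hv, mul_zero, mul_zero]
    · rw [← hev]; rfl
  have hfwd : ∀ z ∈ postCrit f, f.eval z ∈ postCrit f := by
    rintro z ⟨c, hc, n, hn, rfl⟩
    refine ⟨c, hc, n + 1, by omega, ?_⟩
    simp [it, Function.iterate_succ_apply']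
  have hm : α * (-ε) + β ∈ postCrit f := by
    obtain ⟨v, hv1, hv2⟩ := crit_point (d := d) (k := 1) one_pos (by omega)
    have := hcv v hv1
    rw [hv2] at this
    have h2 : ε * (-1) ^ 1 = -ε := by ring
    rwa [h2] at this
  have hp : α * ε + β ∈ postCrit f := by
    by_cases h3 : 3 ≤ d
    · obtain ⟨v, hv1, hv2⟩ := crit_point (d := d) (k := 2) two_pos (by omega)
      have := hcv v hv1
      rw [hv2] at this
      have h2 : ε * (-1) ^ 2 = ε := by ring
      rwa [h2] at this
    · have hd2 : d = 2 := by omega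
      have h1 := hfwd _ hm
      rw [hev] at h1
      have h2 : (Chebyshev.T ℂ (d : ℤ)).eval (-ε) = 1 := by
        rw [hd2]
        have : Chebyshev.T ℂ ((2 : ℕ) : ℤ) = 2 * X ^ 2 - 1 := Chebyshev.T_two ℂ
        rw [this]
        simp only [eval_sub, eval_mul, eval_pow, eval_X, eval_one, eval_ofNat]
        linear_combination 2 * hε2
      rwa [h2, mul_one] at h1
  have hPC : postCrit f = {z₁, z₂} := by
    apply Set.Subset.antisymm
    · rintro z ⟨c, hc, n, hn, rfl⟩
      obtain ⟨m, rfl⟩ : ∃ m, n = m + 1 := ⟨n - 1, by omega⟩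
      rw [hit]
      obtain ⟨v, rfl⟩ := hsurj c
      rw [hev1, derivT] at hc
      have hU : (Chebyshev.U ℂ ((d : ℤ) - 1)).eval v = 0 := by
        rcases mul_eq_zero.1 hc with h | h
        · exact absurd h hε0
        · rcases mul_eq_zero.1 h with h | h
          · exact absurd h hd'
          · exact h
      have h2 := pell d v
      rw [hU] at h2
      apply hitz
      rw [hev]
      apply hpm
      rw [mul_pow, hε2, one_mul]
      linear_combination h2
    · rintro z (rfl | rfl)
      · rcases hε with rfl | rfl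
        · exact hp
        · have : α * (- -1) + β = z₁ := by rw [hz₁]; ring
          rw [← this]; exact hm
      · rcases hε with rfl | rfl
        · exact hm
        · exact hp
  -- conclusion
  obtain ⟨X, instX, T, -, hF, hP, hdeg, -, Λ, hΛ1, hΛ2, hΛ3, -⟩ := hTOP f t hd hfin ht
  have hPT : T.P = {z₁, z₂} := by
    apply Finset.coe_injective
    rw [hP, hPC]
    simp
  have hB : T.S.Branch := (hBR f t X T.S Λ hΛ1 hΛ2 hΛ3).2 hbr
  refine stmt_A6 _ _ T z₁ z₂ hz12 hPT ?_ hB
  intro u hu
  have h1 : T.deg 1 u = ldeg f u := by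
    rw [hdeg]
    simp [itp]
  rw [h1]
  apply hram
  rw [hF] at hu
  exact hu

end PCF
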