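import Pool.Agent.Work.MP_80ff4e_al_helper72.PW

/-!
# MP_80ff4e_al, block CC: combining two portraits
-/

set_option autoImplicit false

open Polynomial

namespace PCF

namespace CC72

theorem natDegree_of_ldeg (p : ℂ[X]) (z : ℂ) (h : ldeg p z ≠ 0) : 1 ≤ p.natDegree := by
  by_contra hcon
  have h0 : p.natDegree = 0 := by omega
  apply h
  have hp := eq_C_of_natDegree_eq_zero h0
  unfold ldeg
  rw [hp]
  simp

theorem critD (hL : Stmt_L) (B D : ℂ[X]) (θ : ℂ) (h : Portrait B D θ) (z : ℂ)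
    (hz : 2 ≤ ldeg D z) : D.eval z = D.eval 0 ∨ D.eval z = D.eval θ := by
  obtain ⟨h0, h1, h2, h3, h4, h5, h6, h7, h8, h9⟩ := h
  have hD : 1 ≤ D.natDegree := natDegree_of_ldeg D 0 (by omega)
  refine noOther hL D hD _ _ (fun h => h6 h.symm) ?_ z hz
  have c1 := card_bound hL D hD (D.eval 0) {0} (by
    intro z hz hz0
    rw [Finset.mem_singleton] at hz0
    rw [h9 z (Or.inl hz) hz0 (fun h => h6 (by rw [← h, hz]))])
  have c2 := card_bound hL D hD (D.eval θ) {θ} (by
    intro z hz hz0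
    rw [Finset.mem_singleton] at hz0
    rw [h9 z (Or.inr hz) (fun h => h6 (by rw [← hz, h])) hz0])
  rw [Finset.card_singleton] at c1 c2
  omega

theorem critB (hL : Stmt_L) (B D : ℂ[X]) (θ : ℂ) (h : Portrait B D θ) :
    ∃ P', P' ≠ B.eval 0 ∧ (∀ z, B.eval z = P' → ldeg B z = 2) ∧
      ∀ z, 2 ≤ ldeg B z → B.eval z = B.eval 0 ∨ B.eval z = P' := by
  obtain ⟨h0, h1, h2, h3, h4, ⟨P', h5, h5'⟩, h6, h7, h8, h9⟩ := h
  refine ⟨P', h5, h5', ?_⟩
  intro z hz
  have hD : 1 ≤ B.natDegree := natDegree_of_ldeg B 0 (by omega)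
  refine noOther hL B hD _ _ (fun h => h5 h.symm) ?_ z hz
  have c1 := card_bound hL B hD (B.eval 0) {0, θ} (by
    intro z hz hz0
    simp only [Finset.mem_insert, Finset.mem_singleton, not_or] at hz0
    rw [h4 z hz hz0.1 hz0.2])
  have c2 := card_bound hL B hD P' ∅ (by
    intro z hz _
    rw [h5' z hz])
  rw [Finset.card_empty] at c2
  have c3 : ({0, θ} : Finset ℂ).card ≤ 2 := Finset.card_le_two
  omega

end CC72

/-- CC: combining two portraits. -/
theorem stmt_CC (hL : Stmt_L) : Stmt_CC := by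
  intro g b₁ b₂ Y₁ W D₂ θ₁ θ₂ hg hgY hgb hY0 hW0 hYo hWo hg2 hg0 hgg0 hP1 hP2 hex
  have hL' := hL
  obtain ⟨-, -, -, l4, l5, l6, l7, l8, l9⟩ := hL
  have hg1 : 1 ≤ g.natDegree := by omega
  have hY1 : 1 ≤ Y₁.natDegree := hYo.pos
  have hW1 : 1 ≤ W.natDegree := hWo.pos
  have hb1 : 1 ≤ b₁.natDegree := CC72.natDegree_of_ldeg b₁ 0 (by rw [hP1.2.2.1]; norm_num)
  have hb2 : 1 ≤ b₂.natDegree := CC72.natDegree_of_ldeg b₂ 0 (by rw [hP2.2.2.1]; norm_num)
  have hD2 : 1 ≤ D₂.natDegree := CC72.natDegree_of_ldeg D₂ 0 (by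
    rw [hP2.2.2.2.2.2.2.2.1]; norm_num)
  have ev1 : ∀ z, g.eval z = b₁.eval (Y₁.eval z) := fun z => by rw [hgY, eval_comp]
  have ev2 : ∀ z, g.eval (b₁.eval z) = b₂.eval (W.eval z) := fun z => by
    rw [← eval_comp, hgb, eval_comp]
  have c1 : b₁.eval 0 = g.eval 0 := by rw [ev1, hY0]
  have c2 : b₂.eval 0 = g.eval (g.eval 0) := by rw [← c1, ev2, hW0]
  have ld1 : ∀ z, ldeg g z = ldeg b₁ (Y₁.eval z) * ldeg Y₁ z := fun z => by
    conv_lhs => rw [hgY]
    exact l8 b₁ Y₁ hb1 hY1 z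
  have ld2 : ∀ z, ldeg g (b₁.eval z) * ldeg b₁ z = ldeg b₂ (W.eval z) * ldeg W z := fun z => by
    rw [← l8 g b₁ hg1 hb1 z, ← l8 b₂ W hb2 hW1 z, hgb]
  obtain ⟨P₁, hP₁0, hP₁, hcrit1⟩ := CC72.critB hL' _ _ _ hP1
  obtain ⟨P₂, hP₂0, hP₂, hcrit2⟩ := CC72.critB hL' _ _ _ hP2
  have hcD1 := CC72.critD hL' _ _ _ hP1
  have hcD2 := CC72.critD hL' _ _ _ hP2
  -- the second critical values are zero
  have z1 : P₁ = 0 := by
    obtain ⟨v, hv⟩ := CC72.exists_preimage hL' b₁ hb1 0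
    obtain ⟨z, hz, hzo⟩ := CC72.exists_odd hL' Y₁ hYo v
    have h2 : 2 ∣ ldeg g z := hg2 z (by rw [ev1, hz, hv])
    rw [ld1, hz] at h2
    have h3 : 2 ∣ ldeg b₁ v := by
      rcases (Nat.Prime.dvd_mul Nat.prime_two).mp h2 with h | h
      · exact h
      · exfalso
        rw [← Nat.not_even_iff_odd] at hzo
        exact hzo (even_iff_two_dvd.mpr h)
    have h4 : 2 ≤ ldeg b₁ v := Nat.le_of_dvd (by have := l6 b₁ hb1 v; omega) h3
    rcases hcrit1 v h4 with h | h
    · exfalso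
      apply hg0
      rw [← c1, ← h, hv]
    · rw [← h, hv]
  have z2 : P₂ = 0 := by
    obtain ⟨v, hv⟩ := CC72.exists_preimage hL' b₂ hb2 0
    obtain ⟨z, hz, hzo⟩ := CC72.exists_odd hL' W hWo v
    have h2 : 2 ∣ ldeg g (b₁.eval z) := hg2 _ (by rw [ev2, hz, hv])
    have h2' : 2 ∣ ldeg b₂ v * ldeg W z := by
      rw [← hz, ← ld2]
      exact Dvd.dvd.mul_right h2 _
    have h3 : 2 ∣ ldeg b₂ v := by
      rcases (Nat.Prime.dvd_mul Nat.prime_two).mp h2' with h | h
      · exact h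
      · exfalso
        rw [← Nat.not_even_iff_odd] at hzo
        exact hzo (even_iff_two_dvd.mpr h)
    have h4 : 2 ≤ ldeg b₂ v := Nat.le_of_dvd (by have := l6 b₂ hb2 v; omega) h3
    rcases hcrit2 v h4 with h | h
    · exfalso
      apply hgg0
      rw [← c2, ← h, hv]
    · rw [← h, hv]
  subst z1
  subst z2
  obtain ⟨p1, p2, p3, p4, p5, -, p6, p7, p8, p9⟩ := hP1
  obtain ⟨q1, q2, q3, q4, q5, -, q6, q7, q8, q9⟩ := hP2
  have evD : ∀ z, (D₂.comp W).eval z = D₂.eval (W.eval z) := fun z => eval_comp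
  have ldD : ∀ z, ldeg (D₂.comp W) z = ldeg D₂ (W.eval z) * ldeg W z := fun z =>
    l8 D₂ W hD2 hW1 z
  -- the critical values of the second factors agree
  have hDθ : D₂.eval θ₂ = D₂.eval (W.eval θ₁) := by
    -- a double point over `D₂ θ₂`
    have hdeg : 2 ≤ D₂.natDegree := by
      obtain ⟨z, hz0, hz⟩ := hex
      have h1 := l5 D₂ hD2 (D₂.eval 0)
      have h2 : ∑ u ∈ ({0, z} : Finset ℂ), ldeg D₂ u ≤ ∑ u ∈ fibre D₂ (D₂.eval 0), ldeg D₂ u := by
        refine Finset.sum_le_sum_of_subset ?_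
        intro u hu
        rw [l4 D₂ hD2]
        simp only [Finset.mem_insert, Finset.mem_singleton] at hu
        rcases hu with rfl | rfl
        · rfl
        · exact hz
      rw [Finset.sum_pair (fun h => hz0 h.symm), h1] at h2
      have := l6 D₂ hD2 0
      have := l6 D₂ hD2 z
      omega
    obtain ⟨w, hw, hwθ⟩ : ∃ w, D₂.eval w = D₂.eval θ₂ ∧ w ≠ θ₂ := by
      by_contra hcon
      push Not at hcon
      have h1 := l5 D₂ hD2 (D₂.eval θ₂)
      have h2 : fibre D₂ (D₂.eval θ₂) = {θ₂} := by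
        ext u
        rw [l4 D₂ hD2, Finset.mem_singleton]
        exact ⟨fun h => hcon u h, fun h => by rw [h]⟩
      rw [h2, Finset.sum_singleton, q8] at h1
      omega
    have hw0 : w ≠ 0 := by
      rintro rfl
      exact q6 hw.symm
    have hw2 : ldeg D₂ w = 2 := q9 w (Or.inr hw) hw0 hwθ
    obtain ⟨z, hz⟩ := CC72.exists_preimage hL' W hW1 w
    have hz2 : 2 ≤ ldeg (D₂.comp W) z := by
      rw [ldD, hz, hw2]
      have := l6 W hW1 z
      omega
    rcases hcD1 z hz2 with h | h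
    · exfalso
      rw [evD, evD, hz, hW0, hw] at h
      exact q6 h
    · rw [evD, evD, hz, hw] at h
      exact h
  have hval1 : ∀ z, (D₂.eval (W.eval z) = D₂.eval 0 ∨ D₂.eval (W.eval z) = D₂.eval θ₂) →
      z ≠ 0 → z ≠ θ₁ → ldeg D₂ (W.eval z) * ldeg W z = 2 := by
    intro z hz h0 hθ
    rw [← ldD]
    refine p9 z ?_ h0 hθ
    rw [evD, evD, evD, hW0]
    rcases hz with h | h
    · exact Or.inl h
    · right; rw [h, hDθ]
  -- ramification of `W`
  have hWram : ∀ z, 2 ≤ ldeg W z → ldeg W z = 2 ∧ (W.eval z = 0 ∨ W.eval z = θ₂) := by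
    intro z hz
    have hd2 := l6 D₂ hD2 (W.eval z)
    have h1 : 2 ≤ ldeg (D₂.comp W) z := by
      rw [ldD]
      nlinarith
    have h2 := hcD1 z h1
    have hz0 : z ≠ 0 := by
      rintro rfl
      rw [p7] at h1
      omega
    have hzθ : z ≠ θ₁ := by
      rintro rfl
      rw [p8] at h1
      omega
    have h3 := p9 z h2 hz0 hzθ
    rw [ldD] at h3
    have h4 : ldeg D₂ (W.eval z) = 1 := by
      by_contra hne
      have h5 : 2 ≤ ldeg D₂ (W.eval z) := by omega
      nlinarith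
    rw [h4, one_mul] at h3
    refine ⟨h3, ?_⟩
    by_contra hcon
    push Not at hcon
    rw [evD, evD, evD, hW0, ← hDθ] at h2
    have := q9 (W.eval z) h2 hcon.1 hcon.2
    omega
  have hWin : ∀ z, (W.eval z = 0 ∨ W.eval z = θ₂) → (z = 0 ∨ z = θ₁) ∧ ldeg W z = 1 ∨
      z ≠ 0 ∧ z ≠ θ₁ ∧ ldeg W z = 2 := by
    intro z hz
    have h4 : ldeg D₂ (W.eval z) = 1 := by
      rcases hz with h | h
      · rw [h, q7]
      · rw [h, q8]
    by_cases h0 : z = 0
    · left
      refine ⟨Or.inl h0, ?_⟩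
      have := ldD z
      rw [h4, one_mul] at this
      rw [← this, h0, p7]
    · by_cases hθ : z = θ₁
      · left
        refine ⟨Or.inr hθ, ?_⟩
        have := ldD z
        rw [h4, one_mul] at this
        rw [← this, hθ, p8]
      · right
        refine ⟨h0, hθ, ?_⟩
        have := hval1 z (by
          rcases hz with h | h
          · left; rw [h]
          · right; rw [h]) h0 hθ
        rw [h4, one_mul] at this
        exact this
  -- the composition `K = g ∘ b₁ = b₂ ∘ W`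
  have hKc : ∀ z, g.eval (b₁.eval z) = b₂.eval 0 →
      (z = 0 ∨ z = θ₁) ∧ ldeg g (b₁.eval z) * ldeg b₁ z = 1 ∨
        z ≠ 0 ∧ z ≠ θ₁ ∧ ldeg g (b₁.eval z) * ldeg b₁ z = 2 ∨
        ldeg g (b₁.eval z) * ldeg b₁ z = 2 := by
    intro z hz
    rw [ld2]
    rw [ev2] at hz
    by_cases hin : W.eval z = 0 ∨ W.eval z = θ₂
    · have hb : ldeg b₂ (W.eval z) = 1 := by
        rcases hin with h | h
        · rw [h, q3]
        · rw [h, q4]
      rw [hb, one_mul]
      rcases hWin z hin with ⟨h1, h2⟩ | ⟨h1, h2, h3⟩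
      · exact Or.inl ⟨h1, h2⟩
      · exact Or.inr (Or.inl ⟨h1, h2, h3⟩)
    · right; right
      have hb : ldeg b₂ (W.eval z) = 2 := by
        push Not at hin
        exact q5 _ hz hin.1 hin.2
      have hw : ldeg W z = 1 := by
        by_contra hne
        have h1 := l6 W hW1 z
        exact hin (hWram z (by omega)).2
      rw [hb, hw]
  have hK0 : ∀ z, g.eval (b₁.eval z) = 0 → ldeg g (b₁.eval z) * ldeg b₁ z = 2 := by
    intro z hz
    rw [ld2]
    rw [ev2] at hz
    have hb : ldeg b₂ (W.eval z) = 2 := hP₂ _ hz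
    have hw : ldeg W z = 1 := by
      by_contra hne
      have h1 := l6 W hW1 z
      rcases (hWram z (by omega)).2 with h | h
      · rw [h] at hz
        exact hP₂0 hz.symm
      · rw [h, q2] at hz
        exact hP₂0 hz.symm
    rw [hb, hw]
  -- `g` over `0`
  have hg0d : ∀ u, g.eval u = 0 → ldeg g u = 2 := by
    intro u hu
    obtain ⟨z, hz⟩ := CC72.exists_preimage hL' b₁ hb1 u
    have h1 := hK0 z (by rw [hz, hu])
    rw [hz] at h1
    have h2 := hg2 u hu
    have h3 := l6 b₁ hb1 z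
    have h4 := l6 g hg1 u
    have h5 : ldeg g u ∣ 2 := ⟨ldeg b₁ z, h1.symm⟩
    exact Nat.dvd_antisymm h5 h2
  -- `g` over `c₂`
  have hgc : ∀ w, g.eval w = b₂.eval 0 → (ldeg g w = 1 ∧ (w = 0 ∨ w = b₁.eval 0)) ∨
      ldeg g w = 2 := by
    intro w hw
    have h4 := l6 g hg1 w
    have hle : ldeg g w ≤ 2 := by
      obtain ⟨z, hz⟩ := CC72.exists_preimage hL' b₁ hb1 w
      have h1 := hKc z (by rw [hz, hw])
      rw [hz] at h1
      have h3 := l6 b₁ hb1 z
      rcases h1 with ⟨-, h1⟩ | ⟨-, -, h1⟩ | h1 <;> nlinarith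
    by_cases h1 : ldeg g w = 1
    · left
      refine ⟨h1, ?_⟩
      by_contra hcon
      push Not at hcon
      obtain ⟨hw0, hwc⟩ := hcon
      obtain ⟨z, hz⟩ := CC72.exists_preimage hL' b₁ hb1 w
      have h2 := hKc z (by rw [hz, hw])
      rw [hz, h1, one_mul] at h2
      have hnot : ¬ (z = 0 ∨ z = θ₁) := by
        rintro (h | h)
        · exact hwc (by rw [← hz, h])
        · exact hwc (by rw [← hz, h, p2])
      have h3 : ldeg b₁ z = 2 := by
        rcases h2 with ⟨h, -⟩ | ⟨-, -, h⟩ | h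
        · exact absurd h hnot
        · exact h
        · exact h
      rcases hcrit1 z (by omega) with h | h
      · exact hwc (by rw [← hz, h])
      · exact hw0 (by rw [← hz, h])
    · right
      omega
  have hc1 : g.eval (b₁.eval 0) = b₂.eval 0 := by rw [ev2, hW0]
  have hc1s : ldeg g (b₁.eval 0) = 1 := by
    have h1 := ld2 0
    rw [hW0, q3, p3, one_mul, mul_one] at h1
    rw [h1]
    have h2 := hWin 0 (Or.inl hW0)
    rcases h2 with ⟨-, h⟩ | ⟨h, -, -⟩
    · exact h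
    · exact absurd rfl h
  -- parity: the degree of `g` is even, so `0` is simple over `c₂`
  have heven : Even g.natDegree := by
    rw [even_iff_two_dvd, ← l5 g hg1 0]
    refine Finset.dvd_sum fun u hu => ?_
    rw [hg0d u ((l4 g hg1 0 u).mp hu)]
  have h0c : g.eval 0 = b₂.eval 0 ∧ ldeg g 0 = 1 := by
    by_contra hcon
    have hsum := l5 g hg1 (b₂.eval 0)
    have hmem : b₁.eval 0 ∈ fibre g (b₂.eval 0) := (l4 g hg1 _ _).mpr hc1
    rw [← Finset.add_sum_erase _ _ hmem, hc1s] at hsum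
    have h2 : 2 ∣ ∑ x ∈ (fibre g (b₂.eval 0)).erase (b₁.eval 0), ldeg g x := by
      refine Finset.dvd_sum fun u hu => ?_
      rw [Finset.mem_erase, l4 g hg1] at hu
      rcases hgc u hu.2 with ⟨h, h'⟩ | h
      · exfalso
        rcases h' with h' | h'
        · subst h'
          exact hcon ⟨hu.2, h⟩
        · exact hu.1 h'
      · rw [h]
    rw [even_iff_two_dvd] at heven
    omega
  obtain ⟨h0c1, h0c2⟩ := h0c
  have hββ : b₂.eval 0 = b₁.eval 0 := by rw [← h0c1, c1]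
  refine ⟨b₂.eval 0, ?_, ?_⟩
  · rw [c2]; exact hgg0
  · intro u hu
    rcases hu with hu | hu
    · right
      refine ⟨hg0d u hu, ?_, ?_⟩
      · rintro rfl
        exact hg0 hu
      · intro h
        rw [h, hββ, hc1] at hu
        exact hP₂0 hu.symm
    · rcases hgc u hu with ⟨h, h'⟩ | h
      · left
        refine ⟨h, ?_⟩
        rw [hββ]
        exact h'
      · right
        refine ⟨h, ?_, ?_⟩
        · rintro rfl
          omega
        · intro h'
          rw [h', hββ, hc1s] at h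
          omega

end PCF
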