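import Pool.Agent.Work.MP_80ff4e_al.Interface4

/-!
# MP_80ff4e_al, blocks PW and CC
-/

set_option autoImplicit false

open Polynomial

namespace PCF

namespace CC72

/-- the fibre is small if most of its points are critical -/
theorem card_bound (hL : Stmt_L) (p : ℂ[X]) (hp : 1 ≤ p.natDegree) (v : ℂ) (E : Finset ℂ)
    (h : ∀ z, p.eval z = v → z ∉ E → 2 ≤ ldeg p z) :
    2 * (fibre p v).card ≤ p.natDegree + E.card := by
  obtain ⟨-, -, -, l4, l5, l6, -, -, -⟩ := hL
  have h1 : ∑ u ∈ fibre p v, ldeg p u = p.natDegree := l5 p hp v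
  have h2 : ∑ u ∈ fibre p v, (2 : ℕ) ≤ ∑ u ∈ fibre p v, (ldeg p u + if u ∈ E then 1 else 0) := by
    refine Finset.sum_le_sum fun u hu => ?_
    by_cases hE : u ∈ E
    · have := l6 p hp u
      simp [hE]
      omega
    · have := h u ((l4 p hp v u).mp hu) hE
      simp [hE]
      omega
  rw [Finset.sum_add_distrib, h1, Finset.sum_const, smul_eq_mul] at h2
  have h3 : ∑ u ∈ fibre p v, (if u ∈ E then 1 else 0) ≤ E.card := by
    rw [← Finset.sum_filter, Finset.sum_const, smul_eq_mul, mul_one]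
    refine Finset.card_le_card fun x hx => ?_
    exact (Finset.mem_filter.mp hx).2
  omega

/-- a critical value has a small fibre -/
theorem card_lt (hL : Stmt_L) (p : ℂ[X]) (hp : 1 ≤ p.natDegree) (z : ℂ) (h : 2 ≤ ldeg p z) :
    (fibre p (p.eval z)).card < p.natDegree := by
  obtain ⟨-, -, -, l4, l5, l6, -, -, -⟩ := hL
  have h1 : ∑ u ∈ fibre p (p.eval z), ldeg p u = p.natDegree := l5 p hp _
  have h2 : ∑ u ∈ fibre p (p.eval z), (1 : ℕ) < ∑ u ∈ fibre p (p.eval z), ldeg p u := by
    refine Finset.sum_lt_sum (fun u _ => l6 p hp u) ⟨z, (l4 p hp _ z).mpr rfl, ?_⟩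
    omega
  rw [h1, Finset.sum_const, smul_eq_mul, mul_one] at h2
  exact h2

/-- Riemann-Hurwitz: no other critical values -/
theorem noOther (hL : Stmt_L) (p : ℂ[X]) (hp : 1 ≤ p.natDegree) (v₁ v₂ : ℂ) (hv : v₁ ≠ v₂)
    (h : (fibre p v₁).card + (fibre p v₂).card ≤ p.natDegree + 1) (z : ℂ) (hz : 2 ≤ ldeg p z) :
    p.eval z = v₁ ∨ p.eval z = v₂ := by
  by_contra hcon
  push Not at hcon
  obtain ⟨hc1, hc2⟩ := hcon
  have hlt := card_lt hL p hp z hz
  obtain ⟨-, -, -, l4, l5, l6, l7, -, l9⟩ := hL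
  have hd : p.derivative ≠ 0 := by
    intro h0
    have := natDegree_eq_zero_of_derivative_eq_zero h0
    omega
  set S : Finset ℂ := insert v₁ (insert v₂ (insert (p.eval z)
    ((p.derivative.roots.toFinset).image fun u => p.eval u))) with hS
  have hRH := l9 p hp S (by
    intro u hu
    rw [hS]
    simp only [Finset.mem_insert, Finset.mem_image, Multiset.mem_toFinset]
    right; right; right
    exact ⟨u, (mem_roots hd).mpr hu, rfl⟩)
  have hsub : ({v₁, v₂, p.eval z} : Finset ℂ) ⊆ S := by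
    intro x hx
    simp only [Finset.mem_insert, Finset.mem_singleton] at hx
    rw [hS]
    simp only [Finset.mem_insert]
    tauto
  have hge := Finset.sum_le_sum_of_subset (f := fun z => p.natDegree - (fibre p z).card) hsub
  rw [Finset.sum_insert, Finset.sum_insert, Finset.sum_singleton] at hge
  · omega
  · simp only [Finset.mem_singleton]
    exact fun h => hc2 h.symm
  · simp only [Finset.mem_insert, Finset.mem_singleton]
    rintro (h | h)
    · exact hv h
    · exact hc1 h.symm

theorem exists_preimage (hL : Stmt_L) (p : ℂ[X]) (hp : 1 ≤ p.natDegree) (v : ℂ) :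
    ∃ z, p.eval z = v := by
  obtain ⟨-, -, -, l4, l5, l6, -, -, -⟩ := hL
  have h1 : ∑ u ∈ fibre p v, ldeg p u = p.natDegree := l5 p hp v
  by_contra hcon
  push Not at hcon
  have : fibre p v = ∅ := by
    rw [Finset.eq_empty_iff_forall_notMem]
    intro u hu
    exact hcon u ((l4 p hp v u).mp hu)
  rw [this, Finset.sum_empty] at h1
  omega

theorem exists_odd (hL : Stmt_L) (p : ℂ[X]) (hp : Odd p.natDegree) (v : ℂ) :
    ∃ z, p.eval z = v ∧ Odd (ldeg p z) := by
  have hp1 : 1 ≤ p.natDegree := hp.pos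
  obtain ⟨-, -, -, l4, l5, l6, -, -, -⟩ := hL
  have h1 : ∑ u ∈ fibre p v, ldeg p u = p.natDegree := l5 p hp1 v
  by_contra hcon
  push Not at hcon
  have h2 : 2 ∣ ∑ u ∈ fibre p v, ldeg p u := by
    refine Finset.dvd_sum fun u hu => ?_
    have := hcon u ((l4 p hp1 v u).mp hu)
    rw [Nat.not_odd_iff_even] at this
    exact this.two_dvd
  rw [h1] at h2
  rw [← Nat.not_even_iff_odd] at hp
  exact hp (even_iff_two_dvd.mpr h2)

end CC72

/-- PW: two totally `p`-ramified values coincide. -/
theorem stmt_PW (hL : Stmt_L) : Stmt_PW := by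
  intro p g hp hg z₁ z₂ h1 h2
  by_contra hne
  have hdvd : ∀ z, p ∣ ldeg g z → 2 ≤ ldeg g z := by
    intro z hz
    have := hL.2.2.2.2.2.1 g hg z
    exact hp.trans (Nat.le_of_dvd (by omega) hz)
  have c1 := CC72.card_bound hL g hg z₁ ∅ (fun z hz _ => hdvd z (h1 z hz))
  have c2 := CC72.card_bound hL g hg z₂ ∅ (fun z hz _ => hdvd z (h2 z hz))
  rw [Finset.card_empty, add_zero] at c1 c2
  obtain ⟨-, -, -, l4, l5, l6, l7, -, l9⟩ := hL
  have hd : g.derivative ≠ 0 := by
    intro h0
    have := natDegree_eq_zero_of_derivative_eq_zero h0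
    omega
  set S : Finset ℂ := insert z₁ (insert z₂
    ((g.derivative.roots.toFinset).image fun u => g.eval u)) with hS
  have hRH := l9 g hg S (by
    intro u hu
    rw [hS]
    simp only [Finset.mem_insert, Finset.mem_image, Multiset.mem_toFinset]
    right; right
    exact ⟨u, (mem_roots hd).mpr hu, rfl⟩)
  have hsub : ({z₁, z₂} : Finset ℂ) ⊆ S := by
    intro x hx
    simp only [Finset.mem_insert, Finset.mem_singleton] at hx
    rw [hS]
    simp only [Finset.mem_insert]
    tauto
  have hge := Finset.sum_le_sum_of_subset (f := fun z => g.natDegree - (fibre g z).card) hsub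
  rw [Finset.sum_insert, Finset.sum_singleton] at hge
  · omega
  · simp only [Finset.mem_singleton]
    exact hne

end PCF
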